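import Pool.Agent.Helper93.Pk.Ram
import Pool.Agent.H25P.Stab

/-!
# The local conditions on the extension, change of base
-/

set_option autoImplicit false
set_option linter.all false

open IsDedekindDomain NumberField WithZero
open scoped Classical Pointwise IntermediateField Topology

namespace Pool.Agent.Helper93.Pk

open Pool.Agent.H25P (Fixed)
open Pool.Agent.H25P.Emb (vv pl pI)

/-- The conditions on the extension `M / K`: it is unramified outside `W`, and `K` is dense in `M` at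
the primes over `J`. -/
structure LocM (K M : Type) [Field K] [NumberField K] [Field M] [NumberField M] [Algebra K M]
    (W : ℕ) (J : Finset ℕ) : Prop where
  unr : ∀ w : HeightOneSpectrum (𝓞 M), (W : 𝓞 M) ∉ w.asIdeal →
    ∃ v : HeightOneSpectrum (𝓞 K), Agree w v
  den : ∀ q ∈ J, ∀ w : HeightOneSpectrum (𝓞 M), (q : 𝓞 M) ∈ w.asIdeal → Dns K w

section basic

variable {K M : Type} [Field K] [NumberField K] [Field M] [NumberField M] [Algebra K M]

theorem ex_above (M : Type) [Field M] [NumberField M] [Algebra K M]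
    (v : HeightOneSpectrum (𝓞 K)) : ∃ w : HeightOneSpectrum (𝓞 M), bel K w = v := by
  haveI := v.isPrime
  obtain ⟨P, hP, hPv⟩ := (inferInstance : Nonempty (Ideal.primesOver v.asIdeal (𝓞 M)))
  have hPv' : v.asIdeal = P.under (𝓞 K) := hPv.over
  have hne : P ≠ ⊥ := by
    rintro rfl
    apply v.ne_bot
    rw [hPv', Ideal.under, eq_bot_iff]
    intro a ha
    rw [Ideal.mem_comap, Ideal.mem_bot] at ha
    rw [Ideal.mem_bot]
    exact (map_eq_zero_iff _ (FaithfulSMul.algebraMap_injective (𝓞 K) (𝓞 M))).1 ha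
  refine ⟨⟨P, hP, hne⟩, ?_⟩
  apply HeightOneSpectrum.ext
  exact hPv'.symm

theorem LocM.ex {W : ℕ} {J : Finset ℕ} (H : LocM K M W J) (v : HeightOneSpectrum (𝓞 K))
    (hv : (W : 𝓞 K) ∉ v.asIdeal) : ∃ w : HeightOneSpectrum (𝓞 M), Agree w v := by
  obtain ⟨w, rfl⟩ := ex_above M v
  obtain ⟨v', hv'⟩ := H.unr w (fun h => hv ((nat_bel W).2 h))
  have := eq_bel hv'
  subst this
  exact ⟨w, hv'⟩

/-- Conjugate primes. -/
theorem conj_of [IsGalois K M] {w w' : HeightOneSpectrum (𝓞 M)} (h : bel K w = bel K w') :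
    ∃ σ : M ≃ₐ[K] M, ∀ x : M, w.valuation M x = w'.valuation M (σ x) := by
  haveI := w.isPrime
  haveI := w'.isPrime
  have h3 : w.asIdeal.under (𝓞 K) = w'.asIdeal.under (𝓞 K) := congrArg HeightOneSpectrum.asIdeal h
  obtain ⟨σ, hσ⟩ := Algebra.IsInvariant.exists_smul_of_under_eq (𝓞 K) (𝓞 M) (M ≃ₐ[K] M)
    w.asIdeal w'.asIdeal h3
  obtain ⟨v', hv'⟩ := Pool.Agent.H25P.ex_act σ w'
  refine ⟨σ, ?_⟩
  have h4 : v' = w := by
    apply HeightOneSpectrum.ext
    ext x
    rw [← HeightOneSpectrum.valuation_lt_one_iff_mem (K := M)]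
    have e : v'.valuation M (algebraMap (𝓞 M) M x) =
        w'.valuation M (algebraMap (𝓞 M) M (σ • x)) := hv' _
    rw [e, HeightOneSpectrum.valuation_lt_one_iff_mem, hσ, Ideal.mem_pointwise_smul_iff_inv_smul_mem,
      inv_smul_smul]
  rw [← h4]
  exact hv'

/-- The density at the place of an embedding in a completion. -/
theorem dns_pl {u : HeightOneSpectrum (𝓞 K)} (φ : M →ₐ[K] u.adicCompletion K) :
    Dns K (pl φ.toRingHom) := by
  intro x hx
  have hd : φ x ≠ 0 := (map_ne_zero φ).2 hx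
  obtain ⟨k, hk⟩ : ∃ k : K, vv u (φ x - algebraMap K (u.adicCompletion K) k) < vv u (φ x) := by
    have hden := HeightOneSpectrum.denseRange_algebraMap (K := K) (v := u)
    have hne' : (Valued.v (R := u.adicCompletion K)
        (Γ₀ := WithZero (Multiplicative ℤ))).restrict (φ x) ≠ 0 := by
      rw [Valuation.ne_zero_iff]
      exact hd
    have hmem : {y : u.adicCompletion K | (Valued.v (R := u.adicCompletion K)
        (Γ₀ := WithZero (Multiplicative ℤ))).restrict (y - φ x) < Units.mk0 _ hne'} ∈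
        𝓝 (φ x) := Valued.mem_nhds.2 ⟨Units.mk0 _ hne', fun y hy => hy⟩
    obtain ⟨y, ⟨k, rfl⟩, hy⟩ := hden.inter_nhds_nonempty hmem
    refine ⟨k, ?_⟩
    have h2 := (Valuation.restrict_lt_iff (Valued.v (R := u.adicCompletion K)
        (Γ₀ := WithZero (Multiplicative ℤ)))).1 hy
    rw [Valuation.map_sub_swap] at h2
    exact h2
  refine ⟨k, ?_⟩
  have e : φ x - algebraMap K (u.adicCompletion K) k = φ.toRingHom (x - algebraMap K M k) := by
    show _ = φ (x - algebraMap K M k)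
    rw [map_sub, φ.commutes]
  rw [e] at hk
  exact (Pool.Agent.H25P.Emb.lt_iff' φ.toRingHom _ _).1 hk

theorem bel_pl {u : HeightOneSpectrum (𝓞 K)} (φ : M →ₐ[K] u.adicCompletion K) :
    bel K (pl φ.toRingHom) = u := by
  apply HeightOneSpectrum.ext
  ext a
  rw [mem_bel]
  show algebraMap (𝓞 K) (𝓞 M) a ∈ pI φ.toRingHom ↔ _
  rw [Pool.Agent.H25P.Emb.mem_pI]
  have e : φ.toRingHom (algebraMap (𝓞 M) M (algebraMap (𝓞 K) (𝓞 M) a)) =
      algebraMap K (u.adicCompletion K) (a : K) := φ.commutes (a : K)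
  rw [e, Pool.Agent.H25P.Emb.vx, HeightOneSpectrum.valuation_lt_one_iff_mem]

/-- Density at the primes over a prime which splits completely. -/
theorem dns_of_emb [IsGalois K M] {w : HeightOneSpectrum (𝓞 M)}
    (φ : M →ₐ[K] (bel K w).adicCompletion K) : Dns K w := by
  obtain ⟨σ, hσ⟩ := conj_of (w := w) (w' := pl φ.toRingHom) (bel_pl φ).symm
  exact (dns_pl φ).conj σ hσ

theorem agree_of_dns {w : HeightOneSpectrum (𝓞 M)} (h : Dns K w) :
    ∃ v : HeightOneSpectrum (𝓞 K), Agree w v := by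
  rw [agree_iff]
  obtain ⟨π, hπ⟩ := w.valuation_exists_uniformizer M
  have hπ0 : π ≠ 0 := by
    rintro rfl
    rw [map_zero] at hπ
    exact exp_ne_zero hπ.symm
  obtain ⟨k, hk⟩ := h π hπ0
  have h1 : w.valuation M (algebraMap K M k) = w.valuation M π := by
    have := Valuation.map_sub_eq_of_lt_left (w.valuation M) (x := π)
      (y := π - algebraMap K M k) hk
    rwa [sub_sub_cancel] at this
  rw [hπ, ← val_pow] at h1
  have h2 : (bel K w).valuation K k ≠ 0 := by
    intro h0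
    have h3 : w.asIdeal.ramificationIdx (𝓞 K) ≠ 0 := by
      haveI := w.isPrime
      exact (w.asIdeal.ramificationIdx_pos (𝓞 K)).ne'
    rw [h0, zero_pow h3] at h1
    exact exp_ne_zero h1.symm
  rw [← exp_log h2, ← exp_nsmul, exp_inj, nsmul_eq_mul] at h1
  have h3 : ((w.asIdeal.ramificationIdx (𝓞 K) : ℕ) : ℤ) ∣ -1 := ⟨_, h1.symm⟩
  rw [dvd_neg] at h3
  have h4 := Int.natCast_dvd.1 h3
  simpa using h4

/-- The Galois group is cyclic if there is a stable unramified prime. -/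
theorem cyclic_of_fixed {v : HeightOneSpectrum (𝓞 M)} (hfix : Fixed K v) (hI : InTriv K v) :
    IsCyclic (M ≃ₐ[K] M) := by
  have hmem : ∀ (σ : M ≃ₐ[K] M) (x : 𝓞 M), σ • x ∈ v.asIdeal ↔ x ∈ v.asIdeal := by
    intro σ x
    rw [← HeightOneSpectrum.valuation_lt_one_iff_mem (K := M),
      ← HeightOneSpectrum.valuation_lt_one_iff_mem (K := M)]
    show v.valuation M (σ (x : M)) < 1 ↔ _
    rw [hfix]
  let P : Ideal (𝓞 M) := v.asIdeal
  haveI : P.IsPrime := v.isPrime
  haveI : P.IsMaximal := v.isMaximal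
  let p : Ideal ℤ := P.under ℤ
  haveI : P.LiesOver p := ⟨rfl⟩
  haveI : p.IsMaximal := Ideal.isMaximal_comap_of_isIntegral_of_isMaximal P
  letI : Field (ℤ ⧸ p) := Ideal.Quotient.field p
  letI : Field (𝓞 M ⧸ P) := Ideal.Quotient.field P
  haveI : Finite (𝓞 M ⧸ P) := Ideal.finiteQuotientOfFreeOfNeBot _ v.ne_bot
  have hstab : ∀ σ : M ≃ₐ[K] M, σ ∈ MulAction.stabilizer (M ≃ₐ[K] M) P := by
    intro σ
    rw [MulAction.mem_stabilizer_iff]
    ext x
    rw [Ideal.mem_pointwise_smul_iff_inv_smul_mem]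
    exact hmem σ⁻¹ x
  have hinj : Function.Injective (Ideal.Quotient.stabilizerHom P p (M ≃ₐ[K] M)) := by
    rw [injective_iff_map_eq_one]
    intro σ hσ
    have h1 : ∀ b : 𝓞 M, (σ : M ≃ₐ[K] M) • b - b ∈ P := by
      intro b
      have h2 := DFunLike.congr_fun hσ (Ideal.Quotient.mk P b)
      rw [← Ideal.Quotient.eq]
      exact h2
    apply Subtype.ext
    refine hI _ fun x => ?_
    have e : (σ : M ≃ₐ[K] M) (x : M) - x = (((σ : M ≃ₐ[K] M) • x - x : 𝓞 M) : M) := rfl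
    rw [e]
    exact (HeightOneSpectrum.valuation_lt_one_iff_mem (K := M) _ _).2 (h1 x)
  haveI h8 : IsCyclic ((𝓞 M ⧸ P) ≃ₐ[ℤ ⧸ p] (𝓞 M ⧸ P)) := inferInstance
  haveI h9 : IsCyclic (MulAction.stabilizer (M ≃ₐ[K] M) P) := isCyclic_of_injective _ hinj
  have h10 : MulAction.stabilizer (M ≃ₐ[K] M) P = ⊤ := by
    rw [eq_top_iff]
    exact fun σ _ => hstab σ
  rw [h10] at h9
  exact isCyclic_of_surjective (Subgroup.topEquiv (G := M ≃ₐ[K] M)) (Subgroup.topEquiv).surjective

end basic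

section base

variable {K L M Ω : Type} [Field K] [NumberField K] [Field L] [NumberField L] [Algebra K L]
  [Field M] [NumberField M] [Algebra K M] [Field Ω] [NumberField Ω] [Algebra K Ω] [Algebra L Ω]
  [Algebra M Ω] [IsScalarTower K M Ω] [IsScalarTower K L Ω]

theorem LocM.up [IsGalois K M] {W : ℕ} {J : Finset ℕ} (H : LocM K M W J) {γ : M} (hK : K⟮γ⟯ = ⊤)
    (hL : L⟮algebraMap M Ω γ⟯ = ⊤) {n : ℕ} {θ : L}
    (ht : ∀ P : HeightOneSpectrum (𝓞 Ω), P.valuation Ω (algebraMap L Ω θ) ≤ 1)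
    (hgen : ∀ x : Ω, ∃ c : Fin n → M, x = ∑ i, algebraMap M Ω (c i) * (algebraMap L Ω θ) ^ (i : ℕ)) :
    LocM L Ω W J := by
  haveI := gal_up (L := L) (Ω := Ω) hK hL
  refine ⟨fun P hP => ?_, fun q hq P hP => ?_⟩
  · exact (unr_iff (K := L) P).2 (intriv_up (K := K) hL P
      ((unr_iff (K := K) (bel M P)).1 (H.unr _ fun h => hP ((nat_bel W).1 h))))
  · exact dns_up P (ht P) θ rfl hgen (H.den q hq _ ((nat_bel q).2 hP))

end base

end Pool.Agent.Helper93.Pk
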