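import Pool.Agent.H25P.Base
import Pool.Agent.Helper93.Pk.Loc

/-!
# The base of the descent

After `H25P/Base.lean`, with local conditions on the extension instead of a generator.
-/

set_option autoImplicit false
set_option linter.all false

open Polynomial IsDedekindDomain NumberField
open scoped Classical IntermediateField

namespace Pool.Agent.Helper93.Pk

open Pool.Agent.N874.PP (Ev Sq1 U0)
open Pool.Agent.N783.PQ (LocIm)
open Pool.Agent.N874.JM (LocF)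
open Pool.Agent.N783.PF
open Pool.Agent.H25P (nat_val ov_iff ov_nat nat_coprime_mem ev_down sq_down not_ev nat_down ov_down
  p_pin p_par p_parq p_ram p_lie Cnd)

/-- The conditions on `W`, `f` and the primes in `S`. -/
structure Setup {K : Type} [Field K] [NumberField K] (g W W' : ℕ) (f : (𝓞 K)[X]) (S J : Finset ℕ)
    (𝔮 : ℕ → Ideal (𝓞 K)) (r P : ℕ → (𝓞 K)[X]) : Prop where
  hg : 1 ≤ g
  sq : SqF g f
  good : GoodS g W S 𝔮 r P
  con : ∀ q ∈ S, Cg (sp K q) f (P q)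
  sub : J ⊆ S
  two : 2 ∣ W'
  irr : ∀ 𝔭 : Ideal (𝓞 K), 𝔭.IsPrime → (W' : 𝓞 K) ∈ 𝔭 → Irreducible (rd 𝔭 f)
  cop : ∀ q ∈ J, ¬ q ∣ W'

section su

variable {K : Type} [Field K] [NumberField K] {g W W' : ℕ} {f : (𝓞 K)[X]} {S J : Finset ℕ}
    {𝔮 : ℕ → Ideal (𝓞 K)} {r P : ℕ → (𝓞 K)[X]}

theorem Setup.prm (H : Setup g W W' f S J 𝔮 r P) {q : ℕ} (hq : q ∈ S) : q.Prime :=
  (H.good q hq).1

theorem Setup.qmem (H : Setup g W W' f S J 𝔮 r P) {q : ℕ} (hq : q ∈ S) : (q : 𝓞 K) ∈ 𝔮 q := by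
  obtain ⟨-, -, -, -, -, -, a2, -⟩ := H.good q hq
  exact a2

theorem Setup.qpr (H : Setup g W W' f S J 𝔮 r P) {q : ℕ} (hq : q ∈ S) : (𝔮 q).IsPrime := by
  obtain ⟨-, -, -, -, -, a1, -⟩ := H.good q hq
  exact a1

theorem Setup.qne (H : Setup g W W' f S J 𝔮 r P) {q : ℕ} (hq : q ∈ S) : 𝔮 q ≠ ⊥ := by
  intro h0
  have h1 := H.qmem hq
  rw [h0, Ideal.mem_bot] at h1
  exact (H.prm hq).ne_zero (by exact_mod_cast h1)

/-- The congruence modulo `𝔮 q`. -/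
theorem Setup.cq (H : Setup g W W' f S J 𝔮 r P) {q : ℕ} (hq : q ∈ S) :
    Cg (𝔮 q) f (X * r q) := by
  intro j
  obtain ⟨-, -, -, -, -, -, a2, -, -, -, -, -, -, a3, -⟩ := H.good q hq
  have b1 := Pool.Agent.N78.PF.sp_le (F := K) a2 (H.con q hq j)
  have b2 := a3 j
  have := Ideal.add_mem _ b1 b2
  simpa using this

theorem Setup.q2 (H : Setup g W W' f S J 𝔮 r P) {q : ℕ} (hq : q ∈ S) : q ≠ 2 := by
  obtain ⟨-, -, -, a, -⟩ := H.good q hq
  rintro rfl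
  norm_num at a

/-- `q` and `W'` are coprime. -/
theorem Setup.cow (H : Setup g W W' f S J 𝔮 r P) {q : ℕ} (hq : q ∈ J) : Nat.Coprime q W' :=
  (Nat.Prime.coprime_iff_not_dvd (H.prm (H.sub hq))).2 (H.cop q hq)

theorem Setup.notW (H : Setup g W W' f S J 𝔮 r P) {F : Type} [Field F] [NumberField F]
    {v : HeightOneSpectrum (𝓞 F)} {q : ℕ} (hq : q ∈ J) (h : (q : 𝓞 F) ∈ v.asIdeal) :
    (W' : 𝓞 F) ∉ v.asIdeal := nat_coprime_mem (H.cow hq) h

theorem Setup.not2 (H : Setup g W W' f S J 𝔮 r P) {F : Type} [Field F] [NumberField F]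
    {v : HeightOneSpectrum (𝓞 F)} (h : (W' : 𝓞 F) ∉ v.asIdeal) :
    (2 : 𝓞 F) ∉ v.asIdeal := by
  intro h2
  obtain ⟨k, hk⟩ := H.two
  apply h
  rw [hk, Nat.cast_mul, Nat.cast_ofNat]
  exact Ideal.mul_mem_right _ _ h2

end su

section base

variable {K L M Ω : Type} [Field K] [NumberField K] [Field L] [NumberField L] [Algebra K L]
  [Field M] [NumberField M] [Algebra K M] [Field Ω] [NumberField Ω] [Algebra K Ω] [Algebra L Ω]
  [Algebra M Ω] [IsScalarTower K M Ω] [IsScalarTower K L Ω]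
  {g W W' : ℕ} {f : (𝓞 K)[X]} {S J : Finset ℕ} {𝔮 : ℕ → Ideal (𝓞 K)} {r P : ℕ → (𝓞 K)[X]}
  {θ : L}

theorem val_theta_le (hG : IsGen g f θ) (𝔓 : HeightOneSpectrum (𝓞 L)) :
    𝔓.valuation L θ ≤ 1 := Pool.Agent.N78.PF.val_theta hG 𝔓

/-- The element `q θ` has odd valuation at the primes of `L`. -/
theorem odd_base (H : Setup g W W' f S J 𝔮 r P) (hG : IsGen g f θ) {q : ℕ} (hq : q ∈ S)
    (𝔓 : HeightOneSpectrum (𝓞 L)) (h1 : Ov (𝔮 q) 𝔓) (h2 : 𝔓.valuation L θ = 1) :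
    𝔓.valuation L (q : L) = WithZero.exp (-1 : ℤ) := by
  obtain ⟨𝔓₁, 𝔓₂, e1, e2, e3, e4, e5, e6, e7⟩ := exq g W K L f θ S 𝔮 r P H.hg hG H.sq H.good q hq
    (H.cq hq)
  rcases e7 𝔓 h1 with rfl | rfl
  · exact e5
  · exact e6

/-- The element `q θ` has odd valuation at the primes of `Ω`. -/
theorem odd_top (H : Setup g W W' f S J 𝔮 r P) (hΩ : LocM L Ω W' J) (hG : IsGen g f θ) {q : ℕ}
    (hq : q ∈ J) (𝔓 : HeightOneSpectrum (𝓞 Ω)) (h1 : Ov (𝔮 q) 𝔓)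
    (h2 : 𝔓.valuation Ω (algebraMap L Ω θ) = 1) :
    𝔓.valuation Ω (q : Ω) = WithZero.exp (-1 : ℤ) ∧ ¬ Ev 𝔓 ((q : Ω) * algebraMap L Ω θ) := by
  have hqm := ov_nat h1 (H.qmem (H.sub hq))
  obtain ⟨𝔓₀, hv⟩ := hΩ.unr 𝔓 (H.notW hq hqm)
  have h3 := (ov_down hv (𝔮 q)).1 h1
  rw [hv] at h2
  have h4 := odd_base H hG (H.sub hq) 𝔓₀ h3 h2
  have h5 : 𝔓.valuation Ω (q : Ω) = WithZero.exp (-1 : ℤ) := by
    rw [← h4, ← hv, map_natCast (algebraMap L Ω)]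
  refine ⟨h5, not_ev ?_⟩
  rw [map_mul, h5, hv, h2, mul_one]

/-- The base of the descent. -/
theorem base (H : Setup g W W' f S J 𝔮 r P) (hΩ : LocM L Ω W' J) (hG : IsGen g f θ)
    (hcore : ∀ h : K[X], aeval θ h ≠ 0 → IsSquare (Algebra.norm K (aeval θ h)) →
      (∀ 𝔓 : HeightOneSpectrum (𝓞 L), (∀ q ∈ J, Ov (𝔮 q) 𝔓 → 𝔓.valuation L θ ≠ 1) →
        Ev 𝔓 (aeval θ h)) →
      (∀ q ∈ J, ∀ 𝔓 : HeightOneSpectrum (𝓞 L), Ov (𝔮 q) 𝔓 → 𝔓.valuation L θ = 1 →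
        U0 𝔓 ((q : L) * θ) (aeval θ h)) →
      (∀ w : HeightOneSpectrum (𝓞 K), (2 : 𝓞 K) ∈ w.asIdeal →
        LocF (w.adicCompletion K) (fF f) h) →
      (∀ σ : K →+* ℝ, LocIm ℝ ((fF f).map σ) (h.map σ)) → IsSquare (aeval θ h))
    (hemb : ∀ w : HeightOneSpectrum (𝓞 K), (2 : 𝓞 K) ∈ w.asIdeal →
      Nonempty (M →ₐ[K] w.adicCompletion K))
    (hreal : ∀ ρ : K →+* ℝ, ∃ τ : M →+* ℝ, τ.comp (algebraMap K M) = ρ)
    {x : L} (hx : x ≠ 0)
    (hC : Cnd f W' J 𝔮 M (algebraMap L Ω θ) (algebraMap L Ω (aeval θ (derivative (fF f))))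
      (algebraMap L Ω x))
    (hN : IsSquare (Algebra.norm K x)) : IsSquare x := by
  obtain ⟨h, rfl⟩ : ∃ h : K[X], aeval θ h = x := by
    obtain ⟨c, hc⟩ := hG.gen x
    refine ⟨∑ i, C (c i) * X ^ (i : ℕ), ?_⟩
    rw [hc, map_sum]
    refine Finset.sum_congr rfl fun i _ => ?_
    rw [map_mul, aeval_C, map_pow, aeval_X]
  have hmap : aeval (algebraMap L Ω θ) (h.map (algebraMap K M)) = algebraMap L Ω (aeval θ h) := by
    rw [aeval_map_algebraMap, aeval_algebraMap_apply]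
  refine hcore h hx hN (fun 𝔓 h𝔓 => ?_) (fun q hq 𝔓 h1 h2 => ?_) (fun w hw => ?_) fun ρ => ?_
  · -- even valuations
    obtain ⟨w, w1, w2, w3⟩ := p_lie K L 𝔓
    by_cases hW : (W' : 𝓞 K) ∈ w.asIdeal
    · exact p_pin g K L f θ hG H.sq w.asIdeal w.isPrime w.ne_bot (H.irr _ w.isPrime hW) _ hx hN 𝔓 w1
    by_cases cq : ∃ q ∈ J, (q : 𝓞 K) ∈ w.asIdeal
    · obtain ⟨q, hq, hqw⟩ := cq
      have hqS := H.sub hq
      by_cases cw : w.asIdeal = 𝔮 q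
      · have o1 : Ov (𝔮 q) 𝔓 := by
          rw [← cw]
          exact w1
        have v1 : 𝔓.valuation L θ < 1 := lt_of_le_of_ne (val_theta_le hG 𝔓) (h𝔓 q hq o1)
        exact p_parq g W K L f θ S 𝔮 r P H.hg hG H.sq H.good q hqS (H.cq hqS) _ hx hN 𝔓 o1 v1
      · have e1 := Pool.Agent.N78.PF.rd_eq (Pool.Agent.N78.PF.sp_le hqw) (H.con q hqS)
        obtain ⟨-, -, -, -, -, -, -, -, -, -, -, -, -, -, a1⟩ := H.good q hqS
        exact p_pin g K L f θ hG H.sq w.asIdeal w.isPrime w.ne_bot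
          (by rw [e1]; exact a1 _ w.isPrime hqw cw) _ hx hN 𝔓 w1
    · -- the other primes
      have key : ∀ 𝔓' : HeightOneSpectrum (𝓞 L), Ov w.asIdeal 𝔓' →
          𝔓'.valuation L (aeval θ (derivative (fF f))) = 1 → Ev 𝔓' (aeval θ h) := by
        intro 𝔓' o' hu
        have hnat : ∀ n : ℕ, (n : 𝓞 K) ∉ w.asIdeal → (n : 𝓞 L) ∉ 𝔓'.asIdeal := by
          intro n hn hc
          obtain ⟨w', u1, u2, u3⟩ := p_lie K L 𝔓'
          have ew : w.asIdeal = w'.asIdeal := Pool.Agent.N78.PF.eq_of_ov w.isPrime w.ne_bot o' u2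
          apply hn
          rw [ew, u2, map_natCast]
          exact hc
        obtain ⟨𝔓₁, hv⟩ := hΩ.ex 𝔓' (hnat W' hW)
        rw [← ev_down hv]
        refine hC.ev 𝔓₁ ?_ ?_ ?_
        · rw [nat_down hv]
          exact hnat W' hW
        · intro q hq
          rw [nat_down hv]
          exact hnat q fun hc => cq ⟨q, hq, hc⟩
        · rw [hv]
          exact hu
      by_cases cu : 𝔓.valuation L (aeval θ (derivative (fF f))) = 1
      · exact key 𝔓 w1 cu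
      · have v1 : 𝔓.valuation L (aeval θ (derivative (fF f))) < 1 :=
          lt_of_le_of_ne (Pool.Agent.N78.PF.val_der hG 𝔓) cu
        obtain ⟨⟨c, hc⟩, hother⟩ := p_ram g K L f θ hG H.sq w.asIdeal w.isPrime w.ne_bot 𝔓 w1 v1
        exact p_par g K L f θ hG H.sq w.asIdeal w.isPrime w.ne_bot 𝔓 c w1 hc _ hx hN
          fun 𝔓' o' n' => key 𝔓' o' (hother 𝔓' o' n')
  · -- the primes over `𝔮 q`
    have hqS := H.sub hq
    have hqm := ov_nat h1 (H.qmem hqS)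
    obtain ⟨𝔓', hv⟩ := hΩ.ex 𝔓 (H.notW hq hqm)
    have h1' := (ov_down hv (𝔮 q)).2 h1
    have hd := hΩ.den q hq 𝔓' ((nat_down hv q).2 hqm)
    have h3 := hC.u0 q hq 𝔓' h1' (by rw [hv]; exact h2)
    refine ⟨fun h4 => sq_down hv hd (h3.1 ((ev_down hv _).2 h4)), fun h4 => ?_⟩
    have h5 := h3.2 fun h6 => h4 ((ev_down hv _).1 h6)
    have e : algebraMap L Ω (aeval θ h) * ((q : Ω) * algebraMap L Ω θ) =
        algebraMap L Ω (aeval θ h * ((q : L) * θ)) := by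
      rw [map_mul, map_mul, map_natCast]
    rw [e] at h5
    exact sq_down hv hd h5
  · obtain ⟨φ⟩ := hemb w hw
    have h1 := hC.two w hw φ _ hmap
    have e : (h.map (algebraMap K M)).map φ.toRingHom =
        h.map (algebraMap K (w.adicCompletion K)) := by
      rw [Polynomial.map_map]
      congr 1
      exact φ.comp_algebraMap
    rw [e] at h1
    exact h1
  · obtain ⟨τ, hτ⟩ := hreal ρ
    have h1 := hC.real τ _ hmap
    have e : (h.map (algebraMap K M)).map τ = h.map ρ := by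
      rw [Polynomial.map_map, hτ]
    rw [e, hτ] at h1
    exact h1

end base

end Pool.Agent.Helper93.Pk
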