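import Pool.Agent.H25P.Top
import Pool.Agent.Helper93.Pk.Base

/-!
# The top of the descent

After `H25P/Top.lean`, with local conditions on the extension instead of a generator.
-/

set_option autoImplicit false
set_option linter.all false

open Polynomial IsDedekindDomain NumberField
open scoped Classical IntermediateField

namespace Pool.Agent.Helper93.Pk

open Pool.Agent.N874.PP (Ev Sq1 U0)
open Pool.Agent.N783.PQ (LocIm)
open Pool.Agent.N874.JM (LocF)
open Pool.Agent.N874.PM (Lies)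
open Pool.Agent.N783.PF
open Pool.Agent.H25P (nat_val nat_val_one ov_iff ov_nat nat_coprime_mem prime_unique ev_down sq_down
  not_ev nat_down ov_down p_pin p_par p_parq p_ram p_lie Cnd fM fF_fM irr_up mod8 der_eq sq_up
  locIm_congr locIm_map)

section top

variable {K L M Ω : Type} [Field K] [NumberField K] [Field L] [NumberField L] [Algebra K L]
  [Field M] [NumberField M] [Algebra K M] [Field Ω] [NumberField Ω] [Algebra K Ω] [Algebra L Ω]
  [Algebra M Ω] [IsScalarTower K M Ω] [IsScalarTower K L Ω]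
  {g W W' : ℕ} {f : (𝓞 K)[X]} {S J : Finset ℕ} {𝔮 : ℕ → Ideal (𝓞 K)} {r P : ℕ → (𝓞 K)[X]}
  {θ : L}

/-- The conditions over `Ω`. -/
theorem top (H : Setup g W W' f S J 𝔮 r P) (hM : LocM K M W' J)
    (hΩ : LocM L Ω W' J) (hG : IsGen g f θ)
    (hGM : IsGen g (fM M f) (algebraMap L Ω θ))
    (g2 : ∀ h : M[X], aeval (algebraMap L Ω θ) h = 0 → (fF f).map (algebraMap K M) ∣ h)
    {h : M[X]}
    (hloc : ∀ w : HeightOneSpectrum (𝓞 M),
      LocF (w.adicCompletion M) (fF ((fM M f).scaleRoots ((Dp J : ℕ) : 𝓞 M))) h)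
    (hreal : ∀ σ : M →+* ℝ, LocIm ℝ ((fF ((fM M f).scaleRoots ((Dp J : ℕ) : 𝓞 M))).map σ)
      (h.map σ))
    (hne : aeval (((Dp J : ℕ) : Ω) * algebraMap L Ω θ) h ≠ 0) :
    Cnd f W' J 𝔮 M (algebraMap L Ω θ) (algebraMap L Ω (aeval θ (derivative (fF f))))
      (aeval (((Dp J : ℕ) : Ω) * algebraMap L Ω θ) h) := by
  have hD0 : Dp J ≠ 0 := by
    rw [Dp, Finset.prod_ne_zero_iff]
    exact fun q hq => (H.prm (H.sub hq)).ne_zero
  have hD8 : Dp J % 8 = 1 := mod8 H.sub fun q hq => (H.good q hq).2.2.2.1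
  have hcomp : ∀ t : M[X], aeval (algebraMap L Ω θ) t =
      aeval (((Dp J : ℕ) : Ω) * algebraMap L Ω θ) h →
      (fF f).map (algebraMap K M) ∣ h.comp (C ((Dp J : ℕ) : M) * X) - t := by
    intro t ht
    apply g2
    rw [map_sub, aeval_comp, map_mul, aeval_C, aeval_X, map_natCast, ht, sub_self]
  refine ⟨fun 𝔓 h1 h2 h3 => ?_, fun q hq 𝔓 h1 h3 => ?_, fun w hw φ t ht => ?_, fun τ t ht => ?_⟩
  · obtain ⟨w, w1, w2, w3⟩ := p_lie M Ω 𝔓
    have hL : Lies (M := M) (Ω := Ω) w 𝔓 := ⟨fun x => (w3 x).1, fun x => (w3 x).2⟩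
    have hnat : ∀ n : ℕ, (n : 𝓞 Ω) ∉ 𝔓.asIdeal → (n : 𝓞 M) ∉ w.asIdeal := by
      intro n hn hc
      apply hn
      have := (w2 _).1 hc
      rwa [map_natCast] at this
    have hDw : ((Dp J : ℕ) : 𝓞 M) ∉ w.asIdeal := by
      intro hd
      rw [Dp, Nat.cast_prod] at hd
      haveI := w.isPrime
      obtain ⟨q, hq, hqw⟩ := (Ideal.IsPrime.prod_mem_iff).1 hd
      exact hnat q (h2 q hq) hqw
    refine Pool.Agent.N78.PF.ev_unit hGM hL (H.not2 (hnat W' h1)) hDw h ?_ (hloc w) hne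
    rw [der_eq]
    exact h3
  · -- the primes over `𝔮 q`
    have hqS := H.sub hq
    have hqm := ov_nat h1 (H.qmem hqS)
    have hWn := H.notW hq hqm
    obtain ⟨w, w1, w2, w3⟩ := p_lie M Ω 𝔓
    have hL : Lies (M := M) (Ω := Ω) w 𝔓 := ⟨fun x => (w3 x).1, fun x => (w3 x).2⟩
    have hqw : (q : 𝓞 M) ∈ w.asIdeal := by
      rw [w2, map_natCast]
      exact hqm
    have hWw : (W' : 𝓞 M) ∉ w.asIdeal := H.notW hq hqw
    -- the places of `K` and of `L`
    obtain ⟨v, hv⟩ := hM.unr w hWw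
    obtain ⟨𝔓₀, hv₀⟩ := hΩ.unr 𝔓 hWn
    have hv1 : 𝔓₀.valuation L θ = 1 := by rw [← hv₀]; exact h3
    have ho₀ := (ov_down hv₀ (𝔮 q)).1 h1
    have hdw : ∀ s : M, s ≠ 0 → ∃ s₀ : K, w.valuation M (s - algebraMap K M s₀) <
        w.valuation M s := hM.den q hq w hqw
    -- `v = 𝔮 q`
    have hqv : 𝔮 q = v.asIdeal := by
      have hmax : (𝔮 q).IsMaximal := (H.qpr hqS).isMaximal (H.qne hqS)
      refine hmax.eq_of_le v.isPrime.ne_top fun a ha => ?_
      have h5 := h1 a ha
      rw [← HeightOneSpectrum.valuation_lt_one_iff_mem (K := K), ← hv]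
      have e6 : algebraMap (𝓞 M) (𝓞 Ω) (algebraMap (𝓞 K) (𝓞 M) a) = algebraMap (𝓞 K) (𝓞 Ω) a := by
        apply NumberField.RingOfIntegers.ext
        exact (IsScalarTower.algebraMap_apply K M Ω (a : K)).symm
      have h6 : algebraMap (𝓞 K) (𝓞 M) a ∈ w.asIdeal := by
        rw [w2, e6]
        exact h5
      exact (HeightOneSpectrum.valuation_lt_one_iff_mem (K := M) w _).2 h6
    obtain ⟨a1, a2, a3, a4, a5, a6, a7, a8, a9, a10, a11, a12, a13, a14, a15⟩ := H.good q hqS
    haveI : Finite (𝓞 M ⧸ w.asIdeal) := Ideal.finiteQuotientOfFreeOfNeBot _ w.ne_bot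
    haveI : Finite (𝓞 Ω ⧸ 𝔓.asIdeal) := Ideal.finiteQuotientOfFreeOfNeBot _ 𝔓.ne_bot
    obtain ⟨D', hD'⟩ : ∃ D' : ℕ, D' = ∏ p ∈ J.erase q, p := ⟨_, rfl⟩
    have hDD : Dp J = q * D' := by
      rw [hD']
      exact (Finset.mul_prod_erase J (fun P => P) hq).symm
    have hD'm : ∀ {F : Type} [Field F] [NumberField F] {u : HeightOneSpectrum (𝓞 F)},
        (q : 𝓞 F) ∈ u.asIdeal → (D' : 𝓞 F) ∉ u.asIdeal := by
      intro F _ _ u hqu hd
      rw [hD', Nat.cast_prod] at hd
      haveI := u.isPrime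
      obtain ⟨p, hp, hpm⟩ := (Ideal.IsPrime.prod_mem_iff).1 hd
      have hp' := Finset.mem_erase.1 hp
      exact hp'.1 (prime_unique (H.prm (H.sub hp'.2)) a1 hpm hqu)
    have v2 : w.valuation M 2 = 1 := by
      have := Pool.Agent.N78.PF.val_one (w := w) (a := 2) (H.not2 hWw)
      rwa [Pool.Agent.N78.PF.two_cast] at this
    have vD' : w.valuation M (D' : M) = 1 := nat_val_one.2 (hD'm hqw)
    obtain ⟨vq, -⟩ := odd_top H hΩ hG hq 𝔓 h1 h3
    obtain ⟨c1, -, -, -⟩ := csq g W K L f θ S 𝔮 r P H.hg hG H.sq H.good q hqS (H.cq hqS) 𝔓₀ ho₀ hv1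
    have s1 : Sq1 𝔓 (-1 : Ω) := by
      have h4 := c1 (-1) (by
        intro hm
        apply a6.ne_top
        rw [Ideal.eq_top_iff_one]
        have := Ideal.neg_mem_iff _ |>.2 hm
        simpa using this)
      have h5 := sq_up hv₀ h4
      have e : algebraMap L Ω (algebraMap K L ((-1 : 𝓞 K) : K)) = -1 := by simp
      rwa [e] at h5
    have s2 : Sq1 𝔓 (algebraMap M Ω (D' : M)) := by
      have h4 := c1 (D' : 𝓞 K) (by rw [hqv]; exact hD'm (by rw [← hqv]; exact a7))
      have h5 := sq_up hv₀ h4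
      have e : algebraMap L Ω (algebraMap K L ((D' : 𝓞 K) : K)) = algebraMap M Ω (D' : M) := by
        simp
      rwa [e] at h5
    have hl := hloc w
    rw [Pool.Agent.N78.PF.fF_scale hGM.mon, hDD, Nat.cast_mul] at hl
    have e8 : ((Dp J : ℕ) : Ω) = algebraMap M Ω ((q : M) * (D' : M)) := by
      rw [hDD]
      simp
    have e9 : (q : Ω) = algebraMap M Ω (q : M) := by simp
    rw [e8] at hne ⊢
    rw [e9]
    rw [e9] at vq
    refine Pool.Agent.N78.PF.LOC2 M Ω (𝓞 M) (𝓞 Ω) w 𝔓 hL v2 g (fF (fM M f)) h (fM M (r q))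
      (q : M) (D' : M) (algebraMap L Ω θ) H.hg (hGM.mon.map _) ?_ (a8.map _) ?_ ?_ ?_ hGM.root h3
      vq vD' s1 s2 hl hne
    · rw [hGM.mon.natDegree_map, hGM.deg]
    · rw [a8.natDegree_map, a9]
    · refine irr_up hv hdw ?_
      rw [← hqv]
      exact a10
    · intro j
      have h4 : f.coeff j - (X * r q).coeff j ∈ v.asIdeal := by
        rw [← hqv]
        exact H.cq hqS j
      rw [← HeightOneSpectrum.valuation_lt_one_iff_mem (K := K), ← hv] at h4
      have e : (fF (fM M f)).coeff j - algebraMap (𝓞 M) M ((X * fM M (r q)).coeff j) =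
          algebraMap K M (algebraMap (𝓞 K) K (f.coeff j - (X * r q).coeff j)) := by
        have e1 : X * fM M (r q) = (X * r q).map (algebraMap (𝓞 K) (𝓞 M)) := by
          rw [Polynomial.map_mul, map_X]
        rw [e1, coeff_map, coeff_map, coeff_map, map_sub, map_sub]
        rfl
      rw [e]
      exact h4
  · -- the primes over two
    haveI : Fact (Nat.Prime 2) := ⟨Nat.prime_two⟩
    obtain ⟨δ, hδ⟩ := Pool.Agent.N891.PQ.sq_two (Dp J) hD8
    obtain ⟨ι, hι, -, -⟩ := Pool.Agent.N498.PQ.cpl K 2 w (by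
      change ((2 : ℕ) : 𝓞 K) ∈ w.asIdeal
      exact_mod_cast hw)
    haveI : CharZero (w.adicCompletion K) :=
      charZero_of_injective_algebraMap (algebraMap K (w.adicCompletion K)).injective
    obtain ⟨j, hj⟩ := Pool.Agent.H25P.Emb.emb φ.toRingHom
    have ej : j.comp (algebraMap M ((Pool.Agent.H25P.Emb.pl φ.toRingHom).adicCompletion M)) = φ.toRingHom :=
      RingHom.ext hj
    have h0 : LocIm ((Pool.Agent.H25P.Emb.pl φ.toRingHom).adicCompletion M)
        ((fF ((fM M f).scaleRoots ((Dp J : ℕ) : 𝓞 M))).map (algebraMap M _))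
        (h.map (algebraMap M _)) := hloc _
    have h1 := locIm_map j h0
    have ea : ((fF ((fM M f).scaleRoots ((Dp J : ℕ) : 𝓞 M))).map
        (algebraMap M ((Pool.Agent.H25P.Emb.pl φ.toRingHom).adicCompletion M))).map j =
        (fF ((fM M f).scaleRoots ((Dp J : ℕ) : 𝓞 M))).map φ.toRingHom := by
      rw [Polynomial.map_map (algebraMap M _) j, ej]
    have eb : (h.map (algebraMap M ((Pool.Agent.H25P.Emb.pl φ.toRingHom).adicCompletion M))).map j =
        h.map φ.toRingHom := by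
      rw [Polynomial.map_map, ej]
    rw [ea, eb] at h1
    letI : Algebra M (w.adicCompletion K) := φ.toRingHom.toAlgebra
    have h2 := Pool.Agent.N78.PF.map_locF (F := M) (E := w.adicCompletion K) hGM.mon hGM.deg hD0
      (ι δ) (by rw [← map_pow, hδ, map_natCast]) h h1
    have e1 : (fF (fM M f)).map φ.toRingHom =
        (fF f).map (algebraMap K (w.adicCompletion K)) := by
      rw [fF_fM, Polynomial.map_map]
      congr 1
      exact φ.comp_algebraMap
    have h3 : LocIm (w.adicCompletion K) ((fF f).map (algebraMap K (w.adicCompletion K)))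
        ((h.comp (C ((Dp J : ℕ) : M) * X)).map φ.toRingHom) := by
      rw [← e1]
      exact h2
    have h4 := Polynomial.map_dvd φ.toRingHom (hcomp t ht)
    rw [Polynomial.map_map, Polynomial.map_sub] at h4
    have e2 : φ.toRingHom.comp (algebraMap K M) = algebraMap K (w.adicCompletion K) :=
      φ.comp_algebraMap
    rw [e2] at h4
    exact locIm_congr h4 h3
  · -- the real places
    letI : Algebra M ℝ := τ.toAlgebra
    have h2 := Pool.Agent.N78.PF.map_locF (F := M) (E := ℝ) hGM.mon hGM.deg hD0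
      (Real.sqrt (Dp J)) (Real.sq_sqrt (Nat.cast_nonneg _)) h (hreal τ)
    have e1 : (fF (fM M f)).map τ = (fF f).map (τ.comp (algebraMap K M)) := by
      rw [fF_fM, Polynomial.map_map]
    have h3 : LocIm ℝ ((fF f).map (τ.comp (algebraMap K M)))
        ((h.comp (C ((Dp J : ℕ) : M) * X)).map τ) := by
      rw [← e1]
      exact h2
    have h4 := Polynomial.map_dvd τ (hcomp t ht)
    rw [Polynomial.map_map, Polynomial.map_sub] at h4
    exact locIm_congr h4 h3

end top

end Pool.Agent.Helper93.Pk
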