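import Pool.Agent.H25P.Sel
import Pool.Agent.Helper93.Pk.Top

/-!
# The 2-Selmer group over all extensions `M` of the number field `K` at once

After `H25P/Sel.lean`. The data `Dat` do not depend on the extension.
-/

set_option autoImplicit false
set_option linter.all false

open Polynomial IsDedekindDomain NumberField
open scoped Classical IntermediateField

namespace Pool.Agent.Helper93.Pk

open Pool.Agent.N874.PP (Ev Sq1 U0)
open Pool.Agent.N783.PQ (LocIm)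
open Pool.Agent.N874.JM (LocF)
open Pool.Agent.N783.PF
open Pool.Agent.H25P (nat_val nat_val_one ov_iff ov_nat nat_coprime_mem prime_unique Cnd fM fF_fM
  irr_ext gen_map gen_top gen_g1 gen_g2 cnd_sq cnd_mul cnd_sig selZero_of fM_scale rd_scale top_up)

/-- The descent over `K`. -/
def Core (K L : Type) [Field K] [NumberField K] [Field L] [NumberField L] [Algebra K L]
    (f : (𝓞 K)[X]) (θ : L) (J : Finset ℕ) (𝔮 : ℕ → Ideal (𝓞 K)) : Prop :=
  ∀ h : K[X], aeval θ h ≠ 0 → IsSquare (Algebra.norm K (aeval θ h)) →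
      (∀ 𝔓 : HeightOneSpectrum (𝓞 L), (∀ q ∈ J, Ov (𝔮 q) 𝔓 → 𝔓.valuation L θ ≠ 1) →
        Ev 𝔓 (aeval θ h)) →
      (∀ q ∈ J, ∀ 𝔓 : HeightOneSpectrum (𝓞 L), Ov (𝔮 q) 𝔓 → 𝔓.valuation L θ = 1 →
        U0 𝔓 ((q : L) * θ) (aeval θ h)) →
      (∀ w : HeightOneSpectrum (𝓞 K), (2 : 𝓞 K) ∈ w.asIdeal →
        LocF (w.adicCompletion K) (fF f) h) →
      (∀ σ : K →+* ℝ, LocIm ℝ ((fF f).map σ) (h.map σ)) → IsSquare (aeval θ h)

/-- The data over `K`, which do not depend on the extension. -/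
structure Dat (K : Type) [Field K] [NumberField K] (g W : ℕ) (f : (𝓞 K)[X]) (S J : Finset ℕ)
    (𝔮 : ℕ → Ideal (𝓞 K)) (r P : ℕ → (𝓞 K)[X]) : Prop where
  hg : 1 ≤ g
  mon : f.Monic
  deg : f.natDegree = 2 * g + 1
  irr : Irreducible (fF f)
  sq : SqF g f
  good : GoodS g W S 𝔮 r P
  con : ∀ q ∈ S, Cg (sp K q) f (P q)
  sub : J ⊆ S
  core : ∃ (L : Type) (_ : Field L) (_ : NumberField L) (_ : Algebra K L) (θ : L), IsGen g f θ ∧
    Core K L f θ J 𝔮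

/-- The theorem on the Selmer group over `M`. -/
theorem selM {K M : Type} [Field K] [NumberField K] [Field M] [NumberField M] [Algebra K M]
    [IsGalois K M] {g W W' : ℕ} {f : (𝓞 K)[X]} {S J : Finset ℕ} {𝔮 : ℕ → Ideal (𝓞 K)}
    {r P : ℕ → (𝓞 K)[X]} (D : Dat K g W f S J 𝔮 r P) {n : ℕ} (hM : Module.finrank K M = 2 ^ n)
    (hemb : ∀ w : HeightOneSpectrum (𝓞 K), (2 : 𝓞 K) ∈ w.asIdeal →
      Nonempty (M →ₐ[K] w.adicCompletion K))
    (hreal : ∀ ρ : K →+* ℝ, ∃ τ : M →+* ℝ, τ.comp (algebraMap K M) = ρ)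
    (hL : LocM K M W' J) (h2 : 2 ∣ W')
    (hirrW : ∀ 𝔭 : Ideal (𝓞 K), 𝔭.IsPrime → (W' : 𝓞 K) ∈ 𝔭 → Irreducible (rd 𝔭 f))
    (hcop : ∀ q ∈ J, ¬ q ∣ W') :
      Irreducible (fF (f.scaleRoots ((Dp J : ℕ) : 𝓞 K))) ∧
        Irreducible (fF (fM M (f.scaleRoots ((Dp J : ℕ) : 𝓞 K)))) ∧
        SelZero (fM M (f.scaleRoots ((Dp J : ℕ) : 𝓞 K))) := by
  obtain ⟨L, _, _, _, θ, hc, hcore⟩ := D.core
  have hm := D.mon
  have hd := D.deg
  have hirr := D.irr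
  have H : Setup g W W' f S J 𝔮 r P :=
    ⟨D.hg, D.sq, D.good, D.con, D.sub, h2, hirrW, hcop⟩
  -- the fields
  have hirrM : Irreducible (fF (fM M f)) := by
    rw [fF_fM]
    refine irr_ext hM hirr (hm.map _) ?_
    rw [hm.natDegree_map, hd]
    exact odd_two_mul_add_one g
  have hmM : (fM M f).Monic := hm.map _
  have hdM : (fM M f).natDegree = 2 * g + 1 := by rw [fM, hm.natDegree_map, hd]
  obtain ⟨Ω, _, _, _, t, hcM⟩ := Pool.Agent.N667.PF.gen M g (fM M f) hmM hdM hirrM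
  letI : Algebra K Ω := ((algebraMap M Ω).comp (algebraMap K M)).toAlgebra
  haveI : IsScalarTower K M Ω := IsScalarTower.of_algebraMap_eq fun x => rfl
  have ht : aeval t (fF f) = 0 := by
    have h1 := hcM.root
    rw [fF_fM, aeval_map_algebraMap] at h1
    exact h1
  obtain ⟨φ, hφ⟩ := gen_map hc hirr ht
  letI : Algebra L Ω := φ.toRingHom.toAlgebra
  haveI : IsScalarTower K L Ω := IsScalarTower.of_algebraMap_eq fun x => (φ.commutes x).symm
  have hθt : algebraMap L Ω θ = t := hφ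
  have hcM' : IsGen g (fM M f) (algebraMap L Ω θ) := by rw [hθt]; exact hcM
  have htopM : M⟮algebraMap L Ω θ⟯ = ⊤ := gen_top hcM'
  obtain ⟨γ, hKγ⟩ := Field.exists_primitive_element K M
  have hLγ : L⟮algebraMap M Ω γ⟯ = ⊤ := top_up (K := K) hKγ htopM
  have hLΩ : LocM L Ω W' J := hL.up hKγ hLγ (fun P => Pool.Agent.N78.PF.val_theta hcM' P) hcM'.gen
  have hD0 : Dp J ≠ 0 := by
    rw [Dp, Finset.prod_ne_zero_iff]
    exact fun q hq => (H.prm (H.sub hq)).ne_zero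
  have hD0K : ((Dp J : ℕ) : K) ≠ 0 := Nat.cast_ne_zero.2 hD0
  have hirrD : Irreducible (fF (f.scaleRoots ((Dp J : ℕ) : 𝓞 K))) := by
    rw [Pool.Agent.N78.PF.fF_scale hm]
    exact Pool.Agent.N170.PF.irr_scale hD0K hirr
  have hirrDM : Irreducible (fF (fM M (f.scaleRoots ((Dp J : ℕ) : 𝓞 K)))) := by
    have hmD : (f.scaleRoots ((Dp J : ℕ) : 𝓞 K)).Monic := (monic_scaleRoots_iff _).2 hm
    rw [fF_fM]
    refine irr_ext hM hirrD (hmD.map _) ?_
    rw [hmD.natDegree_map, natDegree_scaleRoots, hd]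
    exact odd_two_mul_add_one g
  refine ⟨hirrD, hirrDM, ?_⟩
  rw [fM_scale M hm] at hirrDM ⊢
  refine selZero_of hcM' hD0 hirrDM fun h hne hnorm hloc hlocR => ?_
  have g1 := gen_g1 hcM'
  have g2 : ∀ h : M[X], aeval (algebraMap L Ω θ) h = 0 → (fF f).map (algebraMap K M) ∣ h := by
    intro h h0
    rw [← fF_fM]
    exact gen_g2 hcM' hirrM h h0
  have hcnd := top (Ω := Ω) H hL hLΩ hc hcM' g2 hloc hlocR hne
  have h2K : (2 : K) ≠ 0 := two_ne_zero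
  exact Pool.Agent.N301.JM.tow' n K L M Ω h2K hM (by rw [hc.rank]; exact odd_two_mul_add_one g)
      (by rw [hcM'.rank, hc.rank])
      (fun x => Cnd f W' J 𝔮 M (algebraMap L Ω θ) (algebraMap L Ω (aeval θ (derivative (fF f)))) x)
      (fun x hx => cnd_sq g1 g2 hx)
      (fun x y hx hy a b => cnd_mul g1 g2
        (fun q hq => ⟨H.prm (H.sub hq), H.q2 (H.sub hq), H.qmem (H.sub hq)⟩)
        (fun q hq 𝔓 h1 h2 => (odd_top H hLΩ hc hq 𝔓 h1 h2).2) hx hy a b)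
      (fun σ x a => cnd_sig rfl rfl σ a)
      (fun x hx a hN => base H hLΩ hc hcore hemb hreal hx a hN)
      _ hne hcnd hnorm

/-- Irreducibility of the twist modulo primes. -/
theorem rdD {K : Type} [Field K] [NumberField K] {g W W' : ℕ} {f : (𝓞 K)[X]} {S J : Finset ℕ}
    {𝔮 : ℕ → Ideal (𝓞 K)} {r P : ℕ → (𝓞 K)[X]} (D : Dat K g W f S J 𝔮 r P) {𝔭 : Ideal (𝓞 K)}
    (hp : 𝔭.IsPrime) (h0 : 𝔭 ≠ ⊥) (hirr : Irreducible (rd 𝔭 f)) (hq : ∀ q ∈ J, (q : 𝓞 K) ∉ 𝔭) :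
    Irreducible (rd 𝔭 (f.scaleRoots ((Dp J : ℕ) : 𝓞 K))) := by
  refine rd_scale (hp.isMaximal h0) D.mon ?_ hirr
  intro hD
  rw [Dp, Nat.cast_prod] at hD
  obtain ⟨q, hq', hqm⟩ := (Ideal.IsPrime.prod_mem_iff).1 hD
  exact hq q hq' hqm

end Pool.Agent.Helper93.Pk
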