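import Pool.Agent.H25P.Root
import Pool.Agent.N40.PQ.Gen
import Pool.Agent.N362.PQ.UR
import Pool.Agent.Helper93.Pk.Sel

/-!
# Admissible extensions, the root number
-/

set_option autoImplicit false
set_option linter.all false

open IsDedekindDomain NumberField Polynomial
open scoped Classical IntermediateField Pointwise

namespace Pool.Agent.Helper93.Pk

open Pool.Agent.N783.PF (fF rd SelZero Dp)
open Pool.Agent.H25P (Fixed Signs fM sep_up card_of_fixed pr even_inf real_ext nat_prime_mem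
  prime_unique not_delta nat_coprime_mem)

/-- The extensions `M / K` of the theorem: Galois of degree `2 ^ n` with a Galois group which is not
cyclic, unramified at the infinite places, the primes over `2` and over `𝒬` split completely, the primes
ramified over `K` are over `R`. -/
structure Adm (K M : Type) [Field K] [NumberField K] [Field M] [NumberField M] [Algebra K M]
    (𝒬 : Finset ℕ) (R : Set ℕ) : Prop where
  gal : IsGalois K M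
  deg : ∃ n : ℕ, Module.finrank K M = 2 ^ n
  cyc : ¬ IsCyclic (M ≃ₐ[K] M)
  inf : IsUnramifiedAtInfinitePlaces K M
  spl : ∀ u : HeightOneSpectrum (𝓞 K), ((2 : 𝓞 K) ∈ u.asIdeal ∨ ∃ q ∈ 𝒬, (q : 𝓞 K) ∈ u.asIdeal) →
    Nonempty (M →ₐ[K] u.adicCompletion K)
  ram : ∀ w : HeightOneSpectrum (𝓞 M), w.asIdeal.ramificationIdx (𝓞 K) ≠ 1 →
    ∃ p ∈ R, (p : 𝓞 M) ∈ w.asIdeal

section

variable {K M : Type} [Field K] [NumberField K] [Field M] [NumberField M] [Algebra K M]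

/-- Almost all primes are unramified. -/
theorem fin_ram (K M : Type) [Field K] [NumberField K] [Field M] [NumberField M] [Algebra K M] :
    ∃ δ : ℤ, δ ≠ 0 ∧ ∀ w : HeightOneSpectrum (𝓞 M), (δ : 𝓞 M) ∉ w.asIdeal →
      ∃ v : HeightOneSpectrum (𝓞 K), Agree w v := by
  obtain ⟨γ, m, δ, hγ, -⟩ := Pool.Agent.N40.PQ.gen M
  have hKγ : K⟮γ⟯ = ⊤ := by
    rw [eq_top_iff]
    intro x _
    have h1 : x ∈ ℚ⟮γ⟯ := by rw [hγ.top]; trivial
    have h2 : ℚ⟮γ⟯ ≤ (K⟮γ⟯).restrictScalars ℚ := by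
      rw [IntermediateField.adjoin_simple_le_iff]
      exact IntermediateField.mem_adjoin_simple_self K γ
    exact h2 h1
  have hMγ : Pool.Agent.N922.PQ.Gen K γ m δ := ⟨hKγ, hγ.monic, hγ.root, hγ.ne, hγ.comb⟩
  exact ⟨δ, hγ.ne, fun w hw => (Pool.Agent.N362.PQ.ur K M (𝓞 K) (𝓞 M) γ m δ hMγ).1 w hw⟩

/-- A natural number divisible by the primes under the ramified primes. -/
theorem Adm.ex {𝒬 : Finset ℕ} {R : Set ℕ} (H : Adm K M 𝒬 R) (hR : ∀ p ∈ R, p.Prime) :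
    ∃ T : Finset ℕ, (T : Set ℕ) ⊆ R ∧ ∀ w : HeightOneSpectrum (𝓞 M),
      (((∏ p ∈ T, p : ℕ)) : 𝓞 M) ∉ w.asIdeal → ∃ v : HeightOneSpectrum (𝓞 K), Agree w v := by
  obtain ⟨δ, hδ, h1⟩ := fin_ram K M
  refine ⟨(δ.natAbs.primeFactors).filter (fun p => p ∈ R), fun p hp => (Finset.mem_filter.1 hp).2,
    fun w hw => ?_⟩
  by_cases hd : (δ : 𝓞 M) ∈ w.asIdeal
  · rw [agree_iff]
    by_contra hne
    obtain ⟨p, hp, hpw⟩ := H.ram w hne
    have hpp := hR p hp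
    have h2 : ((δ.natAbs : ℕ) : 𝓞 M) ∈ w.asIdeal := by
      rcases Int.natAbs_eq δ with e | e
      · rw [e, Int.cast_natCast] at hd
        exact hd
      · rw [e, Int.cast_neg, Int.cast_natCast, Ideal.neg_mem_iff] at hd
        exact hd
    obtain ⟨p', hp', hpd, hpw'⟩ := nat_prime_mem _ (Int.natAbs_ne_zero.2 hδ) h2
    have he : p = p' := prime_unique hpp hp' hpw hpw'
    subst he
    apply hw
    have hdvd : p ∣ ∏ p ∈ (δ.natAbs.primeFactors).filter (fun p => p ∈ R), p := by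
      refine Finset.dvd_prod_of_mem _ (Finset.mem_filter.2 ⟨?_, hp⟩)
      exact Nat.mem_primeFactors.2 ⟨hpp, hpd, Int.natAbs_ne_zero.2 hδ⟩
    obtain ⟨k, hk⟩ := hdvd
    rw [hk, Nat.cast_mul]
    exact Ideal.mul_mem_right _ _ hpw
  · exact h1 w hd

/-- No prime with sign `-1` is stable under a non-cyclic Galois group. -/
theorem not_fixed [IsGalois K M] (hcyc : ¬ IsCyclic (M ≃ₐ[K] M))
    (hemb : ∀ w : HeightOneSpectrum (𝓞 K), (2 : 𝓞 K) ∈ w.asIdeal →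
      Nonempty (M →ₐ[K] w.adicCompletion K))
    {W : ℕ} (hunr : ∀ w : HeightOneSpectrum (𝓞 M), (W : 𝓞 M) ∉ w.asIdeal →
      ∃ v : HeightOneSpectrum (𝓞 K), Agree w v) {f : (𝓞 K)[X]}
    (hirr : ∀ 𝔭 : Ideal (𝓞 K), 𝔭.IsPrime → 𝔭 ≠ ⊥ → (W : 𝓞 K) ∈ 𝔭 → Irreducible (rd 𝔭 f))
    {w : HeightOneSpectrum (𝓞 M) → ℤ} (hw : Signs K (fM M f) w) (v : HeightOneSpectrum (𝓞 M)) :
    ¬ (w v = -1 ∧ Fixed K v) := by
  rintro ⟨hv, hfix⟩
  have hu0 : v.asIdeal.comap (algebraMap (𝓞 K) (𝓞 M)) ≠ ⊥ := by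
    intro h0
    exact v.ne_bot (Ideal.eq_bot_of_comap_eq_bot h0)
  let u : HeightOneSpectrum (𝓞 K) :=
    ⟨v.asIdeal.comap (algebraMap (𝓞 K) (𝓞 M)), Ideal.comap_isPrime _ _, hu0⟩
  by_cases h2 : (2 : 𝓞 M) ∈ v.asIdeal
  · have h2u : (2 : 𝓞 K) ∈ u.asIdeal := by
      show algebraMap (𝓞 K) (𝓞 M) 2 ∈ v.asIdeal
      rwa [map_ofNat]
    obtain ⟨φ⟩ := hemb u h2u
    have h3 := card_of_fixed hfix (u := u) (fun a ha => ha) φ
    apply hcyc
    exact ⟨1, fun τ => by rw [h3 τ]; exact Subgroup.mem_zpowers _⟩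
  · by_cases hWv : (W : 𝓞 M) ∈ v.asIdeal
    · have hWu : (W : 𝓞 K) ∈ u.asIdeal := by
        show algebraMap (𝓞 K) (𝓞 M) (W : 𝓞 K) ∈ v.asIdeal
        rwa [map_natCast]
      have h3 := hw.good v h2 (sep_up (𝔭 := u.asIdeal) rfl hu0 (hirr u.asIdeal u.isPrime hu0 hWu))
      rw [hv] at h3
      exact absurd h3 (by decide)
    · exact hcyc (cyclic_of_fixed hfix ((unr_iff (K := K) v).1 (hunr v hWv)))

/-- The root number over a non-cyclic Galois extension of degree `2 ^ n`. -/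
theorem root_one [IsGalois K M] {n : ℕ} (hn : Module.finrank K M = 2 ^ n)
    (hcyc : ¬ IsCyclic (M ≃ₐ[K] M))
    (hemb : ∀ w : HeightOneSpectrum (𝓞 K), (2 : 𝓞 K) ∈ w.asIdeal →
      Nonempty (M →ₐ[K] w.adicCompletion K)) (hinf : IsUnramifiedAtInfinitePlaces K M)
    {W : ℕ} (hunr : ∀ w : HeightOneSpectrum (𝓞 M), (W : 𝓞 M) ∉ w.asIdeal →
      ∃ v : HeightOneSpectrum (𝓞 K), Agree w v) {f : (𝓞 K)[X]} (hm : f.Monic)
    (hi : Irreducible (fF (fM M f)))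
    (hirr : ∀ 𝔭 : Ideal (𝓞 K), 𝔭.IsPrime → 𝔭 ≠ ⊥ → (W : 𝓞 K) ∈ 𝔭 → Irreducible (rd 𝔭 f))
    {w : HeightOneSpectrum (𝓞 M) → ℤ} (hw : Signs K (fM M f) w) (g : ℕ) :
    (-1 : ℤ) ^ (g * Nat.card (InfinitePlace M)) * ∏ᶠ v, w v = 1 := by
  have hn1 : 1 ≤ n := by
    by_contra h0
    have h1 : n = 0 := by omega
    subst h1
    rw [pow_zero] at hn
    apply hcyc
    haveI : Subsingleton (M ≃ₐ[K] M) := by
      rw [← Finite.card_le_one_iff_subsingleton, IsGalois.card_aut_eq_finrank K M, hn]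
    infer_instance
  have hfin := hw.finite (hm.map _) hi
  rw [pr hn w hw.sign hfin hw.conj]
  have h1 : {v | w v = -1 ∧ Fixed K v} = ∅ := by
    rw [Set.eq_empty_iff_forall_notMem]
    intro v hv
    exact not_fixed hcyc hemb hunr hirr hw v hv
  rw [h1, Set.ncard_empty, pow_zero, mul_one]
  have h2 : Even (g * Nat.card (InfinitePlace M)) := (even_inf hn hn1 hinf).mul_left g
  exact h2.neg_one_pow

/-- The properties over `M`. -/
structure Good (K M : Type) [Field K] [NumberField K] [Field M] [NumberField M] [Algebra K M]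
    (g : ℕ) (f : (𝓞 K)[X]) : Prop where
  irrM : Irreducible (fF (fM M f))
  sel : SelZero (fM M f)
  root : ∀ w : HeightOneSpectrum (𝓞 M) → ℤ, Signs K (fM M f) w →
    ∀ k : ℕ, (-1 : ℤ) ^ (k * Nat.card (InfinitePlace M)) * ∏ᶠ v, w v = 1

/-- The main theorem on one extension. -/
theorem Dat.onM {g W : ℕ} {f : (𝓞 K)[X]} {S J : Finset ℕ} {𝔮 : ℕ → Ideal (𝓞 K)}
    {r P : ℕ → (𝓞 K)[X]} (D : Dat K g W f S J 𝔮 r P) (hW0 : W ≠ 0) (h2 : 2 ∣ W)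
    (hirrW : ∀ 𝔭 : Ideal (𝓞 K), 𝔭.IsPrime → (W : 𝓞 K) ∈ 𝔭 → Irreducible (rd 𝔭 f))
    (hJW : ∀ q ∈ J, ¬ q ∣ W)
    {R : Set ℕ} (hR : ∀ p ∈ R, p.Prime ∧ p ∉ J ∧
      ∀ 𝔭 : Ideal (𝓞 K), 𝔭.IsPrime → (p : 𝓞 K) ∈ 𝔭 → Irreducible (rd 𝔭 f))
    (A : Adm K M J R) : Good K M g (f.scaleRoots ((Dp J : ℕ) : 𝓞 K)) := by
  haveI := A.gal
  obtain ⟨n, hn⟩ := A.deg
  obtain ⟨T, hT, hunr⟩ := A.ex fun p hp => (hR p hp).1
  have hemb : ∀ w : HeightOneSpectrum (𝓞 K), (2 : 𝓞 K) ∈ w.asIdeal →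
      Nonempty (M →ₐ[K] w.adicCompletion K) := fun w hw => A.spl w (Or.inl hw)
  -- the number `W'`
  obtain ⟨W', hW'⟩ : ∃ W' : ℕ, W' = W * ∏ p ∈ T, p := ⟨_, rfl⟩
  have hT0 : ∏ p ∈ T, p ≠ 0 := by
    rw [Finset.prod_ne_zero_iff]
    exact fun p hp => (hR p (hT hp)).1.ne_zero
  have hirrW' : ∀ 𝔭 : Ideal (𝓞 K), 𝔭.IsPrime → (W' : 𝓞 K) ∈ 𝔭 → Irreducible (rd 𝔭 f) := by
    intro 𝔭 hp h
    rw [hW', Nat.cast_mul] at h
    rcases hp.mem_or_mem h with h | h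
    · exact hirrW 𝔭 hp h
    · rw [Nat.cast_prod] at h
      obtain ⟨p, hp1, hp2⟩ := (Ideal.IsPrime.prod_mem_iff).1 h
      exact (hR p (hT hp1)).2.2 𝔭 hp hp2
  have hcop : ∀ q ∈ J, ¬ q ∣ W' := by
    intro q hq hd
    have hqp : q.Prime := (D.good q (D.sub hq)).1
    rw [hW'] at hd
    rcases hqp.dvd_mul.1 hd with h | h
    · exact hJW q hq h
    · obtain ⟨p, hp1, hp2⟩ := (hqp.prime.dvd_finset_prod_iff _).1 h
      have := (Nat.prime_dvd_prime_iff_eq hqp (hR p (hT hp1)).1).1 hp2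
      subst this
      exact (hR q (hT hp1)).2.1 hq
  have hunr' : ∀ w : HeightOneSpectrum (𝓞 M), (W' : 𝓞 M) ∉ w.asIdeal →
      ∃ v : HeightOneSpectrum (𝓞 K), Agree w v := by
    intro w hw
    refine hunr w fun h => hw ?_
    rw [hW', Nat.cast_mul]
    exact Ideal.mul_mem_left _ _ h
  have hL : LocM K M W' J := by
    refine ⟨hunr', fun q hq w hw => ?_⟩
    obtain ⟨φ⟩ := A.spl (bel K w) (Or.inr ⟨q, hq, (nat_bel q).2 hw⟩)
    exact dns_of_emb φ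
  obtain ⟨-, hi, hs⟩ := selM D hn hemb (real_ext A.inf) hL
    (by rw [hW']; exact h2.mul_right _) hirrW' hcop
  refine ⟨hi, hs, fun w hw k => ?_⟩
  refine root_one hn A.cyc hemb A.inf hunr' ((monic_scaleRoots_iff _).2 D.mon) hi ?_ hw k
  intro 𝔭 hp h0 hW𝔭
  refine rdD (W' := W') D hp h0 (hirrW' 𝔭 hp hW𝔭) fun q hq hqp => ?_
  have hqp' : q.Prime := (D.good q (D.sub hq)).1
  exact nat_coprime_mem (v := ⟨𝔭, hp, h0⟩)
    ((Nat.Prime.coprime_iff_not_dvd hqp').2 (hcop q hq)) hqp hW𝔭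

end

end Pool.Agent.Helper93.Pk
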