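import Pool.Agent.Helper93.Pk.Mq2
import Pool.Agent.H25P.Count
import Pool.Agent.H25P.FinJ

/-!
# The count
-/

set_option autoImplicit false
set_option linter.all false

open IsDedekindDomain NumberField Polynomial Filter
open scoped Classical IntermediateField Pointwise

namespace Pool.Agent.Helper93.Pk

open Pool.Agent.N783.PF
open Pool.Agent.N922.PQ (Gen SplitMod)
open Pool.Agent.H25P (fM Signs)

/-- The primes `l` in `R` which are `1` modulo `8` and squares modulo the elements of `Q`. -/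
def Spc (Q : Finset ℕ) (R : Set ℕ) : Set ℕ := {l ∈ R | l % 8 = 1 ∧ ∀ q ∈ Q, IsSquare (l : ZMod q)}

/-- The property of the polynomial: many extensions `M`. -/
def Many (K : Type) [Field K] [NumberField K] (g : ℕ) (f : (𝓞 K)[X]) : Prop :=
  ∃ (Q : Finset ℕ) (R : Set ℕ), (∀ q ∈ Q, q.Prime) ∧ (∀ l ∈ R, l.Prime) ∧
    (∃ c : ℝ, 0 < c ∧ ∀ᶠ X : ℕ in atTop, c * (Nat.primeCounting X : ℝ) ≤
      (Set.ncard {l : ℕ | l ∈ Spc Q R ∧ l ≤ X} : ℝ)) ∧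
    (∀ (M : Type) [Field M] [NumberField M] [Algebra K M] (T : Finset ℕ) (r : ℕ → M),
      (T : Set ℕ) ⊆ Spc Q R → 2 ≤ T.card → MQ K T r →
      Adm K M Q R ∧ Module.finrank K M = 2 ^ T.card) ∧
    ∀ (M : Type) [Field M] [NumberField M] [Algebra K M], Adm K M Q R → Good K M g f

theorem Adm.mono {K M : Type} [Field K] [NumberField K] [Field M] [NumberField M] [Algebra K M]
    {Q : Finset ℕ} {R R' : Set ℕ} (h : Adm K M Q R) (hR : R ⊆ R') : Adm K M Q R' :=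
  ⟨h.gal, h.deg, h.cyc, h.inf, h.spl, fun w hw => by
    obtain ⟨p, hp, hpw⟩ := h.ram w hw
    exact ⟨p, hR hp, hpw⟩⟩

/-- The good polynomials. -/
structure GoodK (K : Type) [Field K] [NumberField K] (g : ℕ) (f : (𝓞 K)[X]) : Prop where
  mon : f.Monic
  deg : f.natDegree = 2 * g + 1
  irr : Irreducible (fF f)
  min : Min g f
  many : Many K g f

/-- The data over `K` exist. -/
theorem exDat (K : Type) [Field K] [NumberField K] (g : ℕ) (hg : 1 ≤ g) : ∃ κ : ℕ,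
    ∀ (B N W : ℕ) (f₁ : (𝓞 K)[X]) (S : Finset ℕ) (𝔮 : ℕ → Ideal (𝓞 K)) (r P : ℕ → (𝓞 K)[X])
      (f : (𝓞 K)[X]), κ ≤ W → GoodF g W f₁ →
      GoodS g W S 𝔮 r P → Fam g B W f₁ S P f →
      2 ^ κ * B ≤ 4 ^ N → 1 ≤ B → ¬ LBad g N κ S 𝔮 P f →
      ∃ J : Finset ℕ, Dat K g W f S J 𝔮 r P := by
  obtain ⟨κ₁, hκ₁⟩ := core g K hg
  obtain ⟨κ₂, hκ₂⟩ := sqf g K hg
  refine ⟨max κ₁ κ₂, fun B N W f₁ S 𝔮 r P f hW hf₁ hS hF hBN hB hnb => ?_⟩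
  have hBN1 : 2 ^ κ₁ * B ≤ 4 ^ N :=
    (Nat.mul_le_mul_right _ (Nat.pow_le_pow_right (by norm_num) (le_max_left _ _))).trans hBN
  have hBN2 : 2 ^ κ₂ * B ≤ 4 ^ N :=
    (Nat.mul_le_mul_right _ (Nat.pow_le_pow_right (by norm_num) (le_max_right _ _))).trans hBN
  have hnb1 : ¬ LBad g N κ₁ S 𝔮 P f := fun h =>
    hnb (Pool.Agent.N170.PF.LBad.mono (le_max_left _ _) h)
  have hnb2 : ¬ LBad g N κ₂ S 𝔮 P f := fun h =>
    hnb (Pool.Agent.N170.PF.LBad.mono (le_max_right _ _) h)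
  have hm := hF.ht.mon
  have hd := hF.ht.deg
  have hirr : Irreducible (fF f) := Pool.Agent.N667.PF.irr K g W f₁ f hf₁ hF.one hm hd
  have hsq : SqF g f := hκ₂ B N W f₁ S 𝔮 r P f ((le_max_right _ _).trans hW) hf₁ hS hF hirr hBN2
    hB hnb2
  obtain ⟨L, _, _, _, θ, hc⟩ := Pool.Agent.N667.PF.gen K g f hm hd hirr
  obtain ⟨J, hJ, hcore⟩ := hκ₁ L f f₁ θ B N W S 𝔮 r P ((le_max_left _ _).trans hW) hc hsq hf₁ hS
    hF hBN1 hB hnb1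
  have hcc : ∃ (L : Type) (_ : Field L) (_ : NumberField L) (_ : Algebra K L) (θ : L),
      IsGen g f θ ∧ Core K L f θ J 𝔮 :=
    ⟨L, inferInstance, inferInstance, inferInstance, θ, hc, hcore⟩
  exact ⟨J, ⟨hg, hm, hd, hirr, hsq, hS, hF.con, hJ, hcc⟩⟩

theorem splitMod_X (q : ℤ) : SplitMod q (X : ℤ[X]) := by
  refine ⟨{0}, 0, ?_⟩
  simp

theorem final (K : Type) [Field K] [NumberField K] (g : ℕ) (hg : 1 ≤ g) :
    ∃ c : ℝ, 0 < c ∧ ∃ B₀ : ℕ, ∀ B ≥ B₀,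
    {f : (𝓞 K)[X] | Ht g B f}.Finite ∧ c * ({f : (𝓞 K)[X] | Ht g B f}.ncard : ℝ) ≤
      ({f : (𝓞 K)[X] | Ht g B f ∧ GoodK K g f}.ncard : ℝ) := by
  obtain ⟨κ₀, hκ⟩ := exDat K g hg
  obtain ⟨γ, m, δ, hG, -⟩ := Pool.Agent.N40.PQ.gen K
  obtain ⟨Bu, hBu, hunr⟩ := ex_unr K
  obtain ⟨p₀, hp₀δ, hp₀⟩ := Nat.exists_infinite_primes (δ.natAbs + 1)
  have hp₀d : ¬ (p₀ : ℤ) ∣ δ := by
    intro h
    have h1 : p₀ ∣ δ.natAbs := Int.natCast_dvd.1 h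
    have := Nat.le_of_dvd (Nat.pos_of_ne_zero (Int.natAbs_ne_zero.2 hG.ne)) h1
    omega
  refine Pool.Agent.H25P.main2 g K hg (GoodK K g) X monic_X (max κ₀ p₀)
    fun B N W f₁ S 𝔮 r P f hW hpW hf₁ hirr₁ hS hspl hF hBN hB hnb => ?_
  have hBN0 : 2 ^ κ₀ * B ≤ 4 ^ N :=
    (Nat.mul_le_mul_right _ (Nat.pow_le_pow_right (by norm_num) (le_max_left _ _))).trans hBN
  have hnb0 : ¬ LBad g N κ₀ S 𝔮 P f := fun h =>
    hnb (Pool.Agent.N170.PF.LBad.mono (le_max_left _ _) h)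
  obtain ⟨J, D⟩ := hκ B N W f₁ S 𝔮 r P f ((le_max_left _ _).trans hW) hf₁ hS hF hBN0 hB hnb0
  have hWpos := hf₁.pos
  have hirrW : ∀ 𝔭 : Ideal (𝓞 K), 𝔭.IsPrime → (W : 𝓞 K) ∈ 𝔭 → Irreducible (rd 𝔭 f) := by
    intro 𝔭 hp hW
    rw [Pool.Agent.N78.PF.rd_eq (Pool.Agent.N78.PF.sp_le hW) hF.one]
    exact hirr₁ 𝔭 hp hW
  have hJW : ∀ q ∈ J, ¬ q ∣ W := fun q hq hqW =>
    absurd (Nat.le_of_dvd hWpos hqW) (not_le.2 (hS q (D.sub hq)).2.1)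
  have hJp : ∀ q ∈ J, q.Prime ∧ q % 8 = 1 := fun q hq =>
    ⟨(hS q (D.sub hq)).1, (hS q (D.sub hq)).2.2.2.1⟩
  have hJ2 : ∀ q ∈ J, q.Prime ∧ q ≠ 2 := fun q hq => ⟨(hJp q hq).1, by
    rintro rfl
    have := (hJp 2 hq).2
    norm_num at this⟩
  -- the primes
  obtain ⟨Bn, hBn⟩ : ∃ Bn : ℕ, Bn = Bu * ∏ q ∈ J, q := ⟨_, rfl⟩
  have hBn0 : Bn ≠ 0 := by
    rw [hBn]
    refine mul_ne_zero hBu ?_
    rw [Finset.prod_ne_zero_iff]
    exact fun q hq => (hJp q hq).1.ne_zero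
  obtain ⟨R, hR⟩ : ∃ R : Set ℕ, R = {l : ℕ | l.Prime ∧ ¬ l ∣ Bn ∧
    ∀ 𝔭 : Ideal (𝓞 K), 𝔭.IsPrime → (l : 𝓞 K) ∈ 𝔭 → Irreducible (rd 𝔭 f)} := ⟨_, rfl⟩
  have hRJ : ∀ l ∈ R, l ∉ J := by
    intro l hl hlJ
    rw [hR] at hl
    apply hl.2.1
    rw [hBn]
    exact (Finset.dvd_prod_of_mem _ hlJ).mul_left _
  have hspc : Spc J R = Pset K f J Bn := by
    rw [hR]
    ext l
    constructor
    · rintro ⟨⟨h1, h2, h3⟩, h4, h5⟩
      exact ⟨h1, h4, h2, h3, h5⟩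
    · rintro ⟨h1, h4, h2, h3, h5⟩
      exact ⟨⟨h1, h2, h3⟩, h4, h5⟩
  have hmD : (f.scaleRoots ((Dp J : ℕ) : 𝓞 K)).Monic := (monic_scaleRoots_iff _).2 D.mon
  have hD0 : Dp J ≠ 0 := by
    rw [Dp, Finset.prod_ne_zero_iff]
    exact fun q hq => (hJp q hq).1.ne_zero
  refine ⟨J, D.sub, hmD, ?_, ?_, ?_, J, R, fun q hq => (hJp q hq).1, ?_, ?_, ?_, ?_⟩
  · rw [natDegree_scaleRoots, D.deg]
  · rw [Pool.Agent.N78.PF.fF_scale D.mon]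
    exact Pool.Agent.N170.PF.irr_scale (Nat.cast_ne_zero.2 hD0) D.irr
  · exact Pool.Agent.N547.PF.min g W K S J 𝔮 r P f hg hS D.sq D.mon D.deg hF.con D.sub
  · intro l hl
    rw [hR] at hl
    exact hl.1
  · rw [hspc]
    refine prm K f D.mon (by rw [D.deg]; exact odd_two_mul_add_one g) D.irr hp₀ hG hp₀d ?_ J
      (fun q hq => ⟨(hJp q hq).1, by have := (hJp q hq).2; omega⟩) Bn hBn0
    intro 𝔭 hp hpp
    refine hirrW 𝔭 hp ?_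
    obtain ⟨k, hk⟩ := hpW p₀ hp₀ (le_max_right _ _)
    rw [hk, Nat.cast_mul]
    exact Ideal.mul_mem_right _ _ hpp
  · intro M _ _ _ T r hT h2 hMQ
    rw [hspc] at hT
    have h3 := hMQ.adm hJ2 (fun l hl => hT hl) (fun l hl h => by
        have h4 := (hT hl).2.2.1
        apply h4
        rw [hBn]
        exact (Finset.dvd_prod_of_mem _ h).mul_left _) h2 (fun l hl w hw => by
        have h4 := hT hl
        refine hunr l h4.1 (fun h5 => h4.2.2.1 ?_) w hw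
        rw [hBn]
        exact h5.mul_right _)
    refine ⟨h3.1.mono ?_, h3.2⟩
    rw [← hspc]
    exact fun l hl => hl.1
  · intro M _ _ _ A
    refine D.onM hWpos.ne' hf₁.two hirrW hJW (fun p hp => ?_) A
    refine ⟨?_, hRJ p hp, ?_⟩
    · rw [hR] at hp
      exact hp.1
    · rw [hR] at hp
      exact hp.2.2

end Pool.Agent.Helper93.Pk
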