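import Pool.Agent.Helper93.Pk.Loc
import Pool.Agent.N783.PF.Def

/-!
# Frobenius elements and irreducibility modulo primes
-/

set_option autoImplicit false
set_option linter.all false

open IsDedekindDomain NumberField Polynomial
open scoped Classical Pointwise IntermediateField

namespace Pool.Agent.Helper93.Pk

open Pool.Agent.N783.PF (rd)
open Pool.Agent.N922.PQ (Gen)

section fr

variable {F : Type} [Field F] [NumberField F]

/-- `φ` is a Frobenius element at `P`. -/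
def Fr (φ : F ≃ₐ[ℚ] F) (P : HeightOneSpectrum (𝓞 F)) (l : ℕ) : Prop :=
  ∀ x : 𝓞 F, φ • x - x ^ l ∈ P.asIdeal

theorem mem_val (P : HeightOneSpectrum (𝓞 F)) (x : 𝓞 F) :
    x ∈ P.asIdeal ↔ P.valuation F (x : F) < 1 :=
  (HeightOneSpectrum.valuation_lt_one_iff_mem (K := F) P x).symm

theorem Fr.pow {φ : F ≃ₐ[ℚ] F} {P : HeightOneSpectrum (𝓞 F)} {l : ℕ} (h : Fr φ P l) (n : ℕ)
    (x : 𝓞 F) : (φ ^ n) • x - x ^ (l ^ n) ∈ P.asIdeal := by
  induction n generalizing x with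
  | zero => simp
  | succ n ih =>
    have h1 := ih (φ • x)
    have h2 : (φ • x) ^ (l ^ n) - (x ^ l) ^ (l ^ n) ∈ P.asIdeal :=
      Ideal.mem_of_dvd _ (sub_dvd_pow_sub_pow _ _ _) (h x)
    have e : (φ ^ (n + 1)) • x - x ^ (l ^ (n + 1)) =
        ((φ ^ n) • (φ • x) - (φ • x) ^ (l ^ n)) + ((φ • x) ^ (l ^ n) - (x ^ l) ^ (l ^ n)) := by
      rw [pow_succ φ, mul_smul, ← pow_mul, ← pow_succ']
      ring
    rw [e]
    exact P.asIdeal.add_mem h1 h2

theorem Fr.mem {φ : F ≃ₐ[ℚ] F} {P : HeightOneSpectrum (𝓞 F)} {l : ℕ} (h : Fr φ P l) (hl : l ≠ 0)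
    (n : ℕ) {x : 𝓞 F} (hx : x ∈ P.asIdeal) : (φ ^ n) • x ∈ P.asIdeal := by
  have h1 := h.pow n x
  have h2 : x ^ (l ^ n) ∈ P.asIdeal := Ideal.pow_mem_of_mem _ hx _ (by positivity)
  have e : (φ ^ n) • x = ((φ ^ n) • x - x ^ (l ^ n)) + x ^ (l ^ n) := by ring
  rw [e]
  exact P.asIdeal.add_mem h1 h2

theorem Fr.conj {φ : F ≃ₐ[ℚ] F} {P P' : HeightOneSpectrum (𝓞 F)} {l : ℕ} (h : Fr φ P l)
    (ρ : F ≃ₐ[ℚ] F) (hρ : ∀ x : F, P'.valuation F x = P.valuation F (ρ x)) :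
    Fr (ρ⁻¹ * φ * ρ) P' l := by
  intro x
  have h1 := (mem_val P _).1 (h (ρ • x))
  rw [mem_val, hρ]
  have e : ρ ((((ρ⁻¹ * φ * ρ) • x - x ^ l : 𝓞 F)) : F) = ((φ • ρ • x - (ρ • x) ^ l : 𝓞 F) : F) := by
    have e1 : ((((ρ⁻¹ * φ * ρ) • x - x ^ l : 𝓞 F)) : F) = ρ⁻¹ (φ (ρ (x : F))) - (x : F) ^ l := rfl
    have e2 : ((φ • ρ • x - (ρ • x) ^ l : 𝓞 F) : F) = φ (ρ (x : F)) - (ρ (x : F)) ^ l := rfl
    rw [e1, e2, map_sub, map_pow]
    congr 1
    exact AlgEquiv.apply_symm_apply ρ _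
  rw [e]
  exact h1

variable {K : Type} [Field K] [NumberField K] [Algebra K F]

/-- `c` fixes `K`. -/
def FixK (K : Type) [Field K] [NumberField K] {F : Type} [Field F] [NumberField F] [Algebra K F]
    (c : F ≃ₐ[ℚ] F) : Prop := ∀ x : K, c (algebraMap K F x) = algebraMap K F x

theorem FixK.smul {c : F ≃ₐ[ℚ] F} (h : FixK K c) (x : 𝓞 K) :
    c • (algebraMap (𝓞 K) (𝓞 F) x) = algebraMap (𝓞 K) (𝓞 F) x := by
  apply NumberField.RingOfIntegers.ext
  exact h (x : K)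

/-- The subgroup of the automorphisms fixing `K`. -/
def fixG (K : Type) [Field K] [NumberField K] (F : Type) [Field F] [NumberField F] [Algebra K F] :
    Subgroup (F ≃ₐ[ℚ] F) where
  carrier := {c | FixK K c}
  mul_mem' := by
    intro a b ha hb x
    rw [AlgEquiv.mul_apply, hb, ha]
  one_mem' := fun x => rfl
  inv_mem' := by
    intro a ha x
    show a.symm _ = _
    rw [AlgEquiv.symm_apply_eq]
    exact (ha x).symm

theorem mem_fixG {c : F ≃ₐ[ℚ] F} : c ∈ fixG K F ↔ FixK K c := Iff.rfl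

theorem FixK.eval {c : F ≃ₐ[ℚ] F} (h : FixK K c) (a : (𝓞 K)[X]) (r : 𝓞 F) :
    c • (eval₂ (algebraMap (𝓞 K) (𝓞 F)) r a) = eval₂ (algebraMap (𝓞 K) (𝓞 F)) (c • r) a := by
  have h1 := Polynomial.hom_eval₂ a (algebraMap (𝓞 K) (𝓞 F))
    (MulSemiringAction.toRingHom (F ≃ₐ[ℚ] F) (𝓞 F) c) r
  have h2 : (MulSemiringAction.toRingHom (F ≃ₐ[ℚ] F) (𝓞 F) c).comp (algebraMap (𝓞 K) (𝓞 F)) =
      algebraMap (𝓞 K) (𝓞 F) := by
    ext x
    exact congrArg _ (h.smul x)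
  rw [h2] at h1
  exact h1

/-- An automorphism which is trivial on the residue field of a prime unramified in `K` fixes `K`. -/
theorem fix_of_frob {c : F ≃ₐ[ℚ] F} {P : HeightOneSpectrum (𝓞 F)} {γ : K} {m : ℤ[X]} {δ : ℤ}
    (hG : Gen ℚ γ m δ) (hδ : (δ : 𝓞 F) ∉ P.asIdeal)
    (hc : ∀ x : 𝓞 K, c • (algebraMap (𝓞 K) (𝓞 F) x) - algebraMap (𝓞 K) (𝓞 F) x ∈ P.asIdeal) :
    FixK K c := by
  obtain ⟨a, ha⟩ : ∃ a : 𝓞 K, (a : K) = γ := by
    have h1 : IsIntegral ℤ γ := ⟨m, hG.monic, hG.root⟩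
    exact ⟨⟨γ, h1⟩, rfl⟩
  obtain ⟨α, hα⟩ : ∃ α : 𝓞 F, α = algebraMap (𝓞 K) (𝓞 F) a := ⟨_, rfl⟩
  have hαF : (α : F) = algebraMap K F γ := by rw [hα, ← ha]; rfl
  have hroot : ∀ σ : F ≃ₐ[ℚ] F, (m.map (Int.castRingHom (𝓞 F))).eval (σ • α) = 0 := by
    intro σ
    apply NumberField.RingOfIntegers.ext
    rw [eval_map]
    have e1 : (algebraMap (𝓞 F) F) (eval₂ (Int.castRingHom (𝓞 F)) (σ • α) m) =
        eval₂ ((algebraMap (𝓞 F) F).comp (Int.castRingHom (𝓞 F))) (σ (algebraMap K F γ)) m := by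
      rw [hom_eval₂, ← hαF]
      rfl
    have e2 : eval₂ ((algebraMap (𝓞 F) F).comp (Int.castRingHom (𝓞 F))) (σ (algebraMap K F γ)) m =
        σ (algebraMap K F (aeval γ m)) := by
      rw [aeval_def]
      have h3 := Polynomial.hom_eval₂ m (algebraMap ℤ K) ((σ : F →+* F).comp (algebraMap K F)) γ
      have h4 : ((σ : F →+* F).comp (algebraMap K F)).comp (algebraMap ℤ K) =
          (algebraMap (𝓞 F) F).comp (Int.castRingHom (𝓞 F)) := RingHom.ext_int _ _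
      rw [h4] at h3
      exact h3.symm
    exact e1.trans (e2.trans (by rw [hG.root, map_zero, map_zero]; rfl))
  have hca : c • α = α := by
    by_contra hab
    obtain ⟨q, hq⟩ : (X - C α) ∣ m.map (Int.castRingHom (𝓞 F)) := by
      rw [dvd_iff_isRoot]
      have := hroot 1
      rwa [one_smul] at this
    have h2 : q.eval (c • α) = 0 := by
      have h3 := hroot c
      rw [hq, eval_mul, eval_sub, eval_X, eval_C] at h3
      exact (mul_eq_zero.1 h3).resolve_left (sub_ne_zero.2 hab)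
    have h3 : (derivative (m.map (Int.castRingHom (𝓞 F)))).eval α = q.eval α := by
      rw [hq, derivative_mul, eval_add, eval_mul, eval_mul, derivative_sub, derivative_X,
        derivative_C, eval_sub, eval_sub, eval_X, eval_C, eval_one, eval_zero]
      ring
    have h4 : q.eval α ∈ P.asIdeal := by
      have h5 : (c • α) - α ∣ q.eval (c • α) - q.eval α := sub_dvd_eval_sub _ _ _
      rw [h2, zero_sub, dvd_neg] at h5
      refine P.asIdeal.mem_of_dvd h5 ?_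
      rw [hα]
      exact hc a
    obtain ⟨u, w, huw⟩ := hG.comb
    apply hδ
    have h5 := congrArg (fun t : ℤ[X] => (t.map (Int.castRingHom (𝓞 F))).eval α) huw
    simp only [Polynomial.map_add, Polynomial.map_mul, eval_add, eval_mul, map_C, eval_C,
      ← derivative_map] at h5
    have h6 := hroot 1
    rw [one_smul] at h6
    rw [h6, h3, mul_zero, zero_add] at h5
    have h7 : (Int.castRingHom (𝓞 F)) δ = (δ : 𝓞 F) := rfl
    rw [← h7, h5]
    exact Ideal.mul_mem_left _ _ h4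
  intro x
  have h2 : c (algebraMap K F γ) = algebraMap K F γ := by
    rw [← hαF]
    exact congrArg (fun y : 𝓞 F => (y : F)) hca
  let E : IntermediateField ℚ K :=
    (IntermediateField.fixedField (Subgroup.zpowers c)).comap (IsScalarTower.toAlgHom ℚ K F)
  have h4 : ℚ⟮γ⟯ ≤ E := by
    rw [IntermediateField.adjoin_simple_le_iff]
    rintro ⟨τ, hτ⟩
    have h5 : ∀ n : ℤ, (c ^ n) (algebraMap K F γ) = algebraMap K F γ := by
      have h6 : c ∈ MulAction.stabilizer (F ≃ₐ[ℚ] F) (algebraMap K F γ) := h2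
      intro n
      exact Subgroup.zpow_mem _ h6 n
    obtain ⟨n, rfl⟩ := Subgroup.mem_zpowers_iff.1 hτ
    exact h5 n
  rw [hG.top] at h4
  have h5 : x ∈ E := h4 trivial
  exact h5 ⟨c, Subgroup.mem_zpowers _⟩

/-- The zeros of `f` in `F`. -/
def Rts (f : (𝓞 K)[X]) (R : Finset (𝓞 F)) : Prop :=
  f.map (algebraMap (𝓞 K) (𝓞 F)) = ∏ r ∈ R, (X - C r)

theorem Rts.mem_iff {f : (𝓞 K)[X]} {R : Finset (𝓞 F)} (h : Rts f R) (r : 𝓞 F) :
    r ∈ R ↔ eval₂ (algebraMap (𝓞 K) (𝓞 F)) r f = 0 := by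
  rw [← eval_map, h, eval_prod, Finset.prod_eq_zero_iff]
  constructor
  · intro hr
    exact ⟨r, hr, by simp⟩
  · rintro ⟨r', hr', h0⟩
    rw [eval_sub, eval_X, eval_C, sub_eq_zero] at h0
    rw [h0]
    exact hr'

theorem Rts.perm {f : (𝓞 K)[X]} {R : Finset (𝓞 F)} (h : Rts f R) {c : F ≃ₐ[ℚ] F} (hc : FixK K c)
    {r : 𝓞 F} (hr : r ∈ R) : c • r ∈ R := by
  rw [h.mem_iff] at hr ⊢
  rw [← hc.eval, hr, smul_zero]

theorem Rts.deg {f : (𝓞 K)[X]} {R : Finset (𝓞 F)} (h : Rts f R) (hm : f.Monic) :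
    f.natDegree = R.card := by
  have h1 := congrArg natDegree h
  rw [hm.natDegree_map, natDegree_prod_of_monic _ _ fun r _ => monic_X_sub_C r] at h1
  simpa using h1

/-- The map of residue fields. -/
noncomputable abbrev rq (K : Type) [Field K] [NumberField K] {F : Type} [Field F] [NumberField F]
    [Algebra K F] (P : HeightOneSpectrum (𝓞 F)) :
    (𝓞 K ⧸ (bel K P).asIdeal) →+* (𝓞 F ⧸ P.asIdeal) :=
  Ideal.quotientMap P.asIdeal (algebraMap (𝓞 K) (𝓞 F)) le_rfl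

theorem rd_map (P : HeightOneSpectrum (𝓞 F)) (a : (𝓞 K)[X]) :
    (rd (bel K P).asIdeal a).map (rq K P) =
      (a.map (algebraMap (𝓞 K) (𝓞 F))).map (Ideal.Quotient.mk P.asIdeal) := by
  unfold rd
  rw [Polynomial.map_map, Polynomial.map_map]
  congr 1

theorem Rts.red {f : (𝓞 K)[X]} {R : Finset (𝓞 F)} (h : Rts f R) (P : HeightOneSpectrum (𝓞 F)) :
    (rd (bel K P).asIdeal f).map (rq K P) = ∏ r ∈ R, (X - C (Ideal.Quotient.mk P.asIdeal r)) := by
  rw [rd_map, h, Polynomial.map_prod]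
  refine Finset.prod_congr rfl fun r _ => ?_
  rw [Polynomial.map_sub, map_X, map_C]

/-- Irreducibility modulo a prime from transitivity. -/
theorem irr_of_trans {f : (𝓞 K)[X]} (hm : f.Monic) (hd : 1 ≤ f.natDegree) {R : Finset (𝓞 F)}
    (hR : Rts f R) {P : HeightOneSpectrum (𝓞 F)} {φ : F ≃ₐ[ℚ] F} {l : ℕ} (hl : l ≠ 0)
    (hφ : Fr φ P l) (htr : ∀ r ∈ R, ∀ r' ∈ R, ∃ n : ℕ, FixK K (φ ^ n) ∧ (φ ^ n) • r = r')
    (hdist : ∀ r ∈ R, ∀ r' ∈ R, r ≠ r' → r - r' ∉ P.asIdeal) :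
    Irreducible (rd (bel K P).asIdeal f) := by
  haveI := P.isPrime
  haveI := P.isMaximal
  haveI := (bel K P).isMaximal
  letI : Field (𝓞 K ⧸ (bel K P).asIdeal) := Ideal.Quotient.field _
  letI : Field (𝓞 F ⧸ P.asIdeal) := Ideal.Quotient.field _
  have hmf : (rd (bel K P).asIdeal f).Monic := hm.map _
  have hdf : (rd (bel K P).asIdeal f).natDegree = f.natDegree := hm.natDegree_map _
  have hnu : ¬ IsUnit (rd (bel K P).asIdeal f) := by
    intro hu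
    have h1 := natDegree_eq_zero_of_isUnit hu
    omega
  obtain ⟨a, ham, hai, had⟩ := exists_monic_irreducible_factor _ hnu
  obtain ⟨A, hA⟩ := Polynomial.map_surjective (Ideal.Quotient.mk (bel K P).asIdeal)
    Ideal.Quotient.mk_surjective a
  have hA' : rd (bel K P).asIdeal A = a := hA
  have hred := hR.red P
  have hda : a.map (rq K P) ∣ ∏ r ∈ R, (X - C (Ideal.Quotient.mk P.asIdeal r)) := by
    rw [← hred]
    exact Polynomial.map_dvd _ had
  have hev : ∀ r : 𝓞 F, (a.map (rq K P)).eval (Ideal.Quotient.mk P.asIdeal r) = 0 ↔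
      eval₂ (algebraMap (𝓞 K) (𝓞 F)) r A ∈ P.asIdeal := by
    intro r
    rw [← hA', rd_map, eval_map, eval₂_at_apply, eval_map, Ideal.Quotient.eq_zero_iff_mem]
  -- a root
  obtain ⟨r, hr, hr0⟩ : ∃ r ∈ R, eval₂ (algebraMap (𝓞 K) (𝓞 F)) r A ∈ P.asIdeal := by
    by_contra hcon
    push Not at hcon
    have h1 : IsCoprime (a.map (rq K P)) (∏ r ∈ R, (X - C (Ideal.Quotient.mk P.asIdeal r))) := by
      refine IsCoprime.prod_right fun r hr => ?_
      refine IsCoprime.symm ((irreducible_X_sub_C _).coprime_iff_not_dvd.2 ?_)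
      rw [dvd_iff_isRoot]
      intro h2
      exact hcon r hr ((hev r).1 h2)
    have h2 := h1.isUnit_of_dvd' dvd_rfl hda
    have h3 := natDegree_eq_zero_of_isUnit h2
    rw [ham.natDegree_map] at h3
    exact absurd h3 (Irreducible.natDegree_pos hai).ne'
  have hall : ∀ r' ∈ R, eval₂ (algebraMap (𝓞 K) (𝓞 F)) r' A ∈ P.asIdeal := by
    intro r' hr'
    obtain ⟨n, hn, hnr⟩ := htr r hr r' hr'
    rw [← hnr, ← hn.eval]
    exact hφ.mem hl n hr0
  have hdvd : ∏ r ∈ R, (X - C (Ideal.Quotient.mk P.asIdeal r)) ∣ a.map (rq K P) := by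
    refine Finset.prod_dvd_of_coprime ?_ ?_
    · intro r hr r' hr' hne
      show IsCoprime _ _
      refine isCoprime_X_sub_C_of_isUnit_sub ?_
      rw [isUnit_iff_ne_zero, ← map_sub, Ne, Ideal.Quotient.eq_zero_iff_mem]
      exact hdist r hr r' hr' hne
    · intro r' hr'
      rw [dvd_iff_isRoot]
      exact (hev r').2 (hall r' hr')
  have h4 : f.natDegree ≤ a.natDegree := by
    rw [← hred] at hdvd
    have h5 := natDegree_le_of_dvd hdvd (ham.map _).ne_zero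
    rwa [hmf.natDegree_map, ham.natDegree_map, hdf] at h5
  have h6 : rd (bel K P).asIdeal f = a := by
    refine eq_of_monic_of_dvd_of_natDegree_le ham hmf had ?_
    rw [hdf]
    exact h4
  rw [h6]
  exact hai

/-- Transitivity from irreducibility modulo a prime. -/
theorem trans_of_irr {f : (𝓞 K)[X]} (hm : f.Monic) {R : Finset (𝓞 F)}
    (hR : Rts f R) {P : HeightOneSpectrum (𝓞 F)} {φ : F ≃ₐ[ℚ] F} {p : ℕ} (hp : p.Prime)
    (hpP : (p : 𝓞 F) ∈ P.asIdeal)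
    (hφ : Fr φ P p) {γ : K} {m : ℤ[X]} {δ : ℤ} (hG : Gen ℚ γ m δ) (hδ : (δ : 𝓞 F) ∉ P.asIdeal)
    (hirr : Irreducible (rd (bel K P).asIdeal f)) :
    ∃ k : ℕ, FixK K (φ ^ k) ∧ ∀ r ∈ R, ∀ r' ∈ R, ∃ j : ℕ, ((φ ^ k) ^ j) • r = r' := by
  haveI := P.isPrime
  haveI := P.isMaximal
  haveI := (bel K P).isMaximal
  letI : Field (𝓞 K ⧸ (bel K P).asIdeal) := Ideal.Quotient.field _
  letI : Field (𝓞 F ⧸ P.asIdeal) := Ideal.Quotient.field _
  haveI : Finite (𝓞 K ⧸ (bel K P).asIdeal) := Ideal.finiteQuotientOfFreeOfNeBot _ (bel K P).ne_bot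
  haveI : Finite (𝓞 F ⧸ P.asIdeal) := Ideal.finiteQuotientOfFreeOfNeBot _ P.ne_bot
  letI : Fintype (𝓞 K ⧸ (bel K P).asIdeal) := Fintype.ofFinite _
  letI : Fintype (𝓞 F ⧸ P.asIdeal) := Fintype.ofFinite _
  have hpK : (p : 𝓞 K) ∈ (bel K P).asIdeal := (nat_bel p).2 hpP
  obtain ⟨p', hpc⟩ := CharP.exists (𝓞 K ⧸ (bel K P).asIdeal)
  obtain ⟨k, hp', hk⟩ := FiniteField.card (𝓞 K ⧸ (bel K P).asIdeal) p'
  have hpp : p' = p := by
    have h1 : ((p : ℕ) : 𝓞 K ⧸ (bel K P).asIdeal) = 0 := by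
      rw [← map_natCast (Ideal.Quotient.mk (bel K P).asIdeal)]
      exact Ideal.Quotient.eq_zero_iff_mem.2 hpK
    exact (Nat.prime_dvd_prime_iff_eq hp' hp).1 ((CharP.cast_eq_zero_iff _ p' p).1 h1)
  subst hpp
  have hc1 : Fr (φ ^ (k : ℕ)) P (Fintype.card (𝓞 K ⧸ (bel K P).asIdeal)) := by
    intro x
    rw [hk]
    exact hφ.pow k x
  have hfix : FixK K (φ ^ (k : ℕ)) := by
    refine fix_of_frob hG hδ fun x => ?_
    have h1 := hc1 (algebraMap (𝓞 K) (𝓞 F) x)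
    have h2 : x ^ (Fintype.card (𝓞 K ⧸ (bel K P).asIdeal)) - x ∈ (bel K P).asIdeal := by
      rw [← Ideal.Quotient.eq_zero_iff_mem, map_sub, map_pow, FiniteField.pow_card, sub_self]
    have h3 := mem_bel.1 h2
    rw [map_sub, map_pow] at h3
    have h4 := P.asIdeal.add_mem h1 h3
    rwa [sub_add_sub_cancel] at h4
  refine ⟨k, hfix, fun r hr r' hr' => ?_⟩
  obtain ⟨c, hc⟩ : ∃ c : F ≃ₐ[ℚ] F, c = φ ^ (k : ℕ) := ⟨_, rfl⟩
  rw [← hc] at hc1 hfix ⊢
  have hsep : (rd (bel K P).asIdeal f).Separable := PerfectField.separable_of_irreducible hirr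
  have hdist : ∀ x ∈ R, ∀ y ∈ R, Ideal.Quotient.mk P.asIdeal x = Ideal.Quotient.mk P.asIdeal y →
      x = y := by
    have h1 := hsep.map (f := rq K P)
    rw [hR.red P] at h1
    exact separable_prod_X_sub_C_iff'.1 h1
  letI : Algebra (𝓞 K ⧸ (bel K P).asIdeal) (𝓞 F ⧸ P.asIdeal) := (rq K P).toAlgebra
  have hroot : ∀ x ∈ R, minpoly (𝓞 K ⧸ (bel K P).asIdeal) (Ideal.Quotient.mk P.asIdeal x) =
      rd (bel K P).asIdeal f := by
    intro x hx
    refine (minpoly.eq_of_irreducible_of_monic hirr ?_ (hm.map _)).symm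
    have h1 : (rd (bel K P).asIdeal f).map (rq K P) = ∏ r ∈ R, (X - C (Ideal.Quotient.mk P.asIdeal r)) :=
      hR.red P
    have h2 := congrArg (Polynomial.eval (Ideal.Quotient.mk P.asIdeal x)) h1
    rw [eval_prod, Finset.prod_eq_zero hx (by simp), eval_map] at h2
    exact h2
  obtain ⟨σ, hσ⟩ := (Normal.minpoly_eq_iff_mem_orbit (F := 𝓞 K ⧸ (bel K P).asIdeal)
    (𝓞 F ⧸ P.asIdeal)).1 ((hroot r' hr').trans (hroot r hr).symm)
  obtain ⟨j, hj⟩ := (FiniteField.bijective_frobeniusAlgEquivOfAlgebraic_pow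
    (𝓞 K ⧸ (bel K P).asIdeal) (𝓞 F ⧸ P.asIdeal)).2 σ
  refine ⟨j, hdist _ (hR.perm ((fixG K F).pow_mem hfix _) hr) _ hr' ?_⟩
  have h1 := hc1.pow j r
  rw [← Ideal.Quotient.eq_zero_iff_mem, map_sub, sub_eq_zero] at h1
  rw [h1]
  have hσ' : σ (Ideal.Quotient.mk P.asIdeal r) = Ideal.Quotient.mk P.asIdeal r' := hσ
  rw [← hσ', ← hj]
  simp only [AlgEquiv.coe_pow, FiniteField.coe_frobeniusAlgEquivOfAlgebraic, pow_iterate]
  rw [map_pow]

/-- An odd power which acts trivially. -/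
theorem odd_pow {f : (𝓞 K)[X]} {R : Finset (𝓞 F)} (hR : Rts f R) {c : F ≃ₐ[ℚ] F} (hc : FixK K c)
    (htr : ∀ r ∈ R, ∀ r' ∈ R, ∃ j : ℕ, (c ^ j) • r = r') {r : 𝓞 F} (hr : r ∈ R) :
    (c ^ R.card) • r = r := by
  have horb : MulAction.orbit (Subgroup.zpowers c) r = (R : Set (𝓞 F)) := by
    ext x
    constructor
    · rintro ⟨⟨τ, hτ⟩, rfl⟩
      obtain ⟨n, rfl⟩ := Subgroup.mem_zpowers_iff.1 hτ
      exact hR.perm ((fixG K F).zpow_mem hc n) hr
    · intro hx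
      obtain ⟨j, hj⟩ := htr r hr x hx
      exact ⟨⟨c ^ j, Subgroup.npow_mem_zpowers c j⟩, hj⟩
  letI : Fintype (MulAction.orbit (Subgroup.zpowers c) r) := by
    rw [horb]
    infer_instance
  have h1 := MulAction.minimalPeriod_eq_card c r
  have h2 : Fintype.card (MulAction.orbit (Subgroup.zpowers c) r) = R.card := by
    rw [← Nat.card_eq_fintype_card, Nat.card_congr (Equiv.setCongr horb)]
    simp
  rw [h2] at h1
  have h3 := Function.isPeriodicPt_minimalPeriod (fun x => c • x) r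
  rw [h1] at h3
  have h4 : (fun x => c • x)^[R.card] r = r := h3
  rw [smul_iterate] at h4
  exact h4

/-- Transitivity by even powers. -/
theorem even_trans {f : (𝓞 K)[X]} {R : Finset (𝓞 F)} (hR : Rts f R) (hodd : Odd R.card)
    {φ : F ≃ₐ[ℚ] F} {k : ℕ} (hk : FixK K (φ ^ k))
    (htr : ∀ r ∈ R, ∀ r' ∈ R, ∃ j : ℕ, ((φ ^ k) ^ j) • r = r') :
    ∀ r ∈ R, ∀ r' ∈ R, ∃ n : ℕ, FixK K ((φ ^ 2) ^ n) ∧ ((φ ^ 2) ^ n) • r = r' := by
  have key : ∀ j : ℕ, Even (k * j) → ∀ r : 𝓞 F, ∃ n : ℕ, (φ ^ 2) ^ n = (φ ^ k) ^ j := by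
    intro j hj r
    obtain ⟨n, hn⟩ := hj
    refine ⟨n, ?_⟩
    rw [← pow_mul, ← pow_mul, hn, two_mul]
  intro r hr r' hr'
  obtain ⟨j, hj⟩ := htr r hr r' hr'
  rcases Nat.even_or_odd (k * j) with h | h
  · obtain ⟨n, hn⟩ := key j h r
    refine ⟨n, ?_, ?_⟩
    · rw [hn]
      exact (fixG K F).pow_mem hk j
    · rw [hn]
      exact hj
  · have hk' : Odd k := (Nat.odd_mul.1 h).1
    have h' : Even (k * (j + R.card)) := by
      rw [mul_add]
      exact h.add_odd (hk'.mul hodd)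
    obtain ⟨n, hn⟩ := key _ h' r
    refine ⟨n, ?_, ?_⟩
    · rw [hn]
      exact (fixG K F).pow_mem hk _
    · rw [hn, pow_add, mul_smul, odd_pow hR hk htr hr]
      exact hj

end fr

end Pool.Agent.Helper93.Pk
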