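import Pool.Agent.Helper93.Pk.Prm
import Pool.Agent.H25P.Basic

/-!
# The set of primes
-/

set_option autoImplicit false
set_option linter.all false

open IsDedekindDomain NumberField Polynomial Filter
open scoped Classical Pointwise IntermediateField

namespace Pool.Agent.Helper93.Pk

open Pool.Agent.N783.PF (rd fF)
open Pool.Agent.N922.PQ (Gen)
open Pool.Agent.Helper93.Pf (euler int_of_sq)

section

variable {F : Type} [Field F] [NumberField F]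

theorem int_mem_conj {P P' : HeightOneSpectrum (𝓞 F)} {ρ : F ≃ₐ[ℚ] F}
    (hρ : ∀ x : F, P'.valuation F x = P.valuation F (ρ x)) (n : ℤ) :
    ((n : ℤ) : 𝓞 F) ∈ P'.asIdeal ↔ ((n : ℤ) : 𝓞 F) ∈ P.asIdeal := by
  rw [mem_val, mem_val, hρ]
  have e : (((n : ℤ) : 𝓞 F) : F) = ((n : ℤ) : F) := map_intCast (algebraMap (𝓞 F) F) n
  rw [e, map_intCast]

/-- The integers in a prime over `p`. -/
theorem int_mem {P : HeightOneSpectrum (𝓞 F)} {p : ℕ} (hp : p.Prime) (hP : (p : 𝓞 F) ∈ P.asIdeal)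
    (n : ℤ) : ((n : ℤ) : 𝓞 F) ∈ P.asIdeal ↔ (p : ℤ) ∣ n := by
  constructor
  · intro h
    by_contra hd
    have hc : IsCoprime (p : ℤ) n := (Nat.prime_iff_prime_int.1 hp).coprime_iff_not_dvd.2 hd
    obtain ⟨u, w, huw⟩ := hc
    apply P.isPrime.ne_top
    rw [Ideal.eq_top_iff_one]
    have h9 : (1 : 𝓞 F) = (u : 𝓞 F) * (p : 𝓞 F) + (w : 𝓞 F) * (n : 𝓞 F) := by
      have := congrArg (Int.cast (R := 𝓞 F)) huw
      push_cast at this
      exact this.symm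
    rw [h9]
    exact Ideal.add_mem _ (Ideal.mul_mem_left _ _ hP) (Ideal.mul_mem_left _ _ h)
  · rintro ⟨k, rfl⟩
    push_cast
    exact Ideal.mul_mem_right _ _ hP

/-- A prime over `p`. -/
theorem ex_over (F : Type) [Field F] [NumberField F] {p : ℕ} (hp : p.Prime) :
    ∃ P : HeightOneSpectrum (𝓞 F), (p : 𝓞 F) ∈ P.asIdeal := by
  have hne : Ideal.span {(p : 𝓞 F)} ≠ ⊤ := by
    intro h
    rw [Ideal.span_singleton_eq_top] at h
    have h1 := Ideal.absNorm_span_singleton (p : 𝓞 F)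
    have h2 : Ideal.absNorm (Ideal.span {(p : 𝓞 F)}) = 1 := by
      rw [Ideal.absNorm_eq_one_iff, Ideal.span_singleton_eq_top]
      exact h
    rw [h2] at h1
    have h3 : Algebra.norm ℤ (p : 𝓞 F) = (p : ℤ) ^ Module.finrank ℤ (𝓞 F) := by
      have := Algebra.norm_algebraMap_of_basis (RingOfIntegers.basis F) (p : ℤ)
      rw [← Module.finrank_eq_card_basis (RingOfIntegers.basis F)] at this
      simpa using this
    rw [h3, Int.natAbs_pow, Int.natAbs_natCast] at h1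
    have h4 : 0 < Module.finrank ℤ (𝓞 F) := by
      rw [RingOfIntegers.rank]
      exact Module.finrank_pos
    have h5 := Nat.one_lt_pow h4.ne' hp.one_lt
    omega
  obtain ⟨I, hI, hle⟩ := Ideal.exists_le_maximal _ hne
  have hpI : (p : 𝓞 F) ∈ I := hle (Ideal.mem_span_singleton_self _)
  refine ⟨⟨I, hI.isPrime, ?_⟩, hpI⟩
  rintro rfl
  rw [Ideal.mem_bot] at hpI
  exact hp.ne_zero (by exact_mod_cast hpI)

/-- A Frobenius element. -/
theorem ex_frob [IsGalois ℚ F] {P : HeightOneSpectrum (𝓞 F)} {p : ℕ} (hp : p.Prime)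
    (hP : (p : 𝓞 F) ∈ P.asIdeal) : ∃ φ : F ≃ₐ[ℚ] F, Fr φ P p := by
  haveI := P.isPrime
  haveI : Finite (𝓞 F ⧸ P.asIdeal) := Ideal.finiteQuotientOfFreeOfNeBot _ P.ne_bot
  obtain ⟨φ, hφ⟩ := IsArithFrobAt.exists_of_isInvariant ℤ (F ≃ₐ[ℚ] F) P.asIdeal
  refine ⟨φ, fun x => ?_⟩
  have h1 := hφ x
  have h2 : P.asIdeal.under ℤ = Ideal.span {(p : ℤ)} := by
    ext n
    rw [Ideal.under, Ideal.mem_comap, Ideal.mem_span_singleton, ← int_mem hp hP]
    rfl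
  rw [h2] at h1
  have h3 : Nat.card (ℤ ⧸ Ideal.span {(p : ℤ)}) = p := by
    rw [Nat.card_congr (Int.quotientSpanNatEquivZMod p).toEquiv, Nat.card_zmod]
  rw [h3] at h1
  exact h1

end

/-- The rational primes of the theorem. -/
def Pset (K : Type) [Field K] [NumberField K] (f : (𝓞 K)[X]) (S : Finset ℕ) (B₀ : ℕ) : Set ℕ :=
  {l : ℕ | l.Prime ∧ l % 8 = 1 ∧ ¬ l ∣ B₀ ∧
    (∀ 𝔭 : Ideal (𝓞 K), 𝔭.IsPrime → (l : 𝓞 K) ∈ 𝔭 → Irreducible (rd 𝔭 f)) ∧
    ∀ q ∈ S, IsSquare (l : ZMod q)}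

/-- **Many primes.** -/
theorem prm (K : Type) [Field K] [NumberField K] (f : (𝓞 K)[X]) (hm : f.Monic)
    (hodd : Odd f.natDegree) (hirr : Irreducible (fF f)) {p : ℕ} (hp : p.Prime) {γ : K} {m : ℤ[X]}
    {δ : ℤ} (hG : Gen ℚ γ m δ) (hpδ : ¬ (p : ℤ) ∣ δ)
    (hirrp : ∀ 𝔭 : Ideal (𝓞 K), 𝔭.IsPrime → (p : 𝓞 K) ∈ 𝔭 → Irreducible (rd 𝔭 f))
    (S : Finset ℕ) (hS : ∀ q ∈ S, q.Prime ∧ q % 4 = 1) (B₀ : ℕ) (hB₀ : B₀ ≠ 0) :
    ∃ c : ℝ, 0 < c ∧ ∀ᶠ X : ℕ in atTop, c * (Nat.primeCounting X : ℝ) ≤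
      (Set.ncard {l : ℕ | l ∈ Pset K f S B₀ ∧ l ≤ X} : ℝ) := by
  obtain ⟨F, _, _, _, R, hgal, hR, hsq⟩ := exists_F K f hm hirr
    (insert (-1 : ℤ) (insert (2 : ℤ) (S.image fun q : ℕ => (q : ℤ))))
  have hd1 : 1 ≤ f.natDegree := hodd.pos
  have hRodd : Odd R.card := by rw [← hR.deg hm]; exact hodd
  obtain ⟨P₀, hP₀⟩ := ex_over F hp
  obtain ⟨φ₀, hφ₀⟩ := ex_frob (F := F) hp hP₀
  -- the property of the automorphism
  have hstar : ∀ ρ : F ≃ₐ[ℚ] F, ∀ r ∈ R, ∀ r' ∈ R, ∃ n : ℕ,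
      FixK K ((ρ⁻¹ * φ₀ ^ 2 * ρ) ^ n) ∧ ((ρ⁻¹ * φ₀ ^ 2 * ρ) ^ n) • r = r' := by
    intro ρ
    obtain ⟨P', hρ⟩ := Pool.Agent.H25P.ex_act (K := ℚ) ρ P₀
    have h1 := hφ₀.conj ρ hρ
    have h2 : (p : 𝓞 F) ∈ P'.asIdeal := by
      have := (int_mem_conj hρ (p : ℤ)).2 (by push_cast; exact hP₀)
      push_cast at this
      exact this
    have h3 : (δ : 𝓞 F) ∉ P'.asIdeal := by
      rw [int_mem hp h2]
      exact hpδ
    obtain ⟨k, hk, htr⟩ := trans_of_irr hm hR hp h2 h1 hG h3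
      (hirrp _ (bel K P').isPrime ((nat_bel p).2 h2))
    have h4 := even_trans hR hRodd hk htr
    have e : (ρ⁻¹ * φ₀ * ρ) ^ 2 = ρ⁻¹ * φ₀ ^ 2 * ρ := by
      rw [pow_two, pow_two]
      group
    rw [e] at h4
    exact h4
  have hfixs : ∀ (s : F) (d : ℤ), s ^ 2 = (d : F) → (φ₀ ^ 2) s = s := by
    intro s d hs
    have h1 : φ₀ s = s ∨ φ₀ s = -s := by
      have h2 : (φ₀ s) ^ 2 = s ^ 2 := by
        rw [← map_pow, hs, map_intCast]
      exact sq_eq_sq_iff_eq_or_eq_neg.1 h2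
    rw [pow_two, AlgEquiv.mul_apply]
    rcases h1 with h1 | h1
    · rw [h1, h1]
    · rw [h1, map_neg, h1, neg_neg]
  -- the bad primes
  obtain ⟨N, hN⟩ : ∃ N : ℕ, N = ∏ r ∈ R, ∏ r' ∈ R.erase r, Ideal.absNorm (Ideal.span {r - r'}) :=
    ⟨_, rfl⟩
  have hN0 : N ≠ 0 := by
    rw [hN, Finset.prod_ne_zero_iff]
    intro r _
    rw [Finset.prod_ne_zero_iff]
    intro r' hr'
    rw [Ne, Ideal.absNorm_eq_zero_iff, Ideal.span_singleton_eq_bot, sub_eq_zero]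
    exact (Finset.ne_of_mem_erase hr').symm
  have hNm : ∀ P : HeightOneSpectrum (𝓞 F), ∀ r ∈ R, ∀ r' ∈ R, r ≠ r' → r - r' ∈ P.asIdeal →
      (N : 𝓞 F) ∈ P.asIdeal := by
    intro P r hr r' hr' hne h
    have h1 : ((Ideal.absNorm (Ideal.span {r - r'}) : ℕ) : 𝓞 F) ∈ P.asIdeal := by
      have h2 : Ideal.span {r - r'} ≤ P.asIdeal := by
        rw [Ideal.span_singleton_le_iff_mem]
        exact h
      exact h2 (Ideal.absNorm_mem _)
    have h3 : Ideal.absNorm (Ideal.span {r - r'}) ∣ N := by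
      rw [hN]
      exact (Finset.dvd_prod_of_mem (fun y => Ideal.absNorm (Ideal.span {r - y}))
        (Finset.mem_erase.2 ⟨hne.symm, hr'⟩)).trans
        (Finset.dvd_prod_of_mem (fun x => ∏ y ∈ R.erase x, Ideal.absNorm (Ideal.span {x - y})) hr)
    obtain ⟨k, hk⟩ := h3
    rw [hk, Nat.cast_mul]
    exact Ideal.mul_mem_right _ _ h1
  obtain ⟨B, hB⟩ : ∃ B : ℤ, B = 2 * (∏ q ∈ S, (q : ℤ)) * (N : ℤ) * (B₀ : ℤ) := ⟨_, rfl⟩
  have hB0 : B ≠ 0 := by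
    rw [hB]
    refine mul_ne_zero (mul_ne_zero (mul_ne_zero two_ne_zero ?_) (by exact_mod_cast hN0))
      (by exact_mod_cast hB₀)
    rw [Finset.prod_ne_zero_iff]
    intro q hq
    exact_mod_cast (hS q hq).1.ne_zero
  refine cheb F (φ₀ ^ 2) hB0 (fun l => l ∈ Pset K f S B₀) fun l hlp hlB P hPn hFr => ?_
  haveI : Fact l.Prime := ⟨hlp⟩
  have hl2 : l ≠ 2 := by
    intro h4
    apply hlB
    rw [h4, hB]
    exact ⟨(∏ q ∈ S, (q : ℤ)) * N * B₀, by push_cast; ring⟩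
  have hlN : ¬ (l : ℤ) ∣ (N : ℤ) := fun h => hlB (by rw [hB]; exact (h.mul_left _).mul_right _)
  have hlB₀ : ¬ (l : ℤ) ∣ (B₀ : ℤ) := fun h => hlB (by rw [hB]; exact h.mul_left _)
  have hlS : ∀ q ∈ S, ¬ (l : ℤ) ∣ (q : ℤ) := fun q hq h =>
    hlB (by rw [hB]; exact (((h.trans (Finset.dvd_prod_of_mem _ hq)).mul_left _).mul_right _).mul_right _)
  have hsq' : ∀ d ∈ insert (-1 : ℤ) (insert (2 : ℤ) (S.image fun q : ℕ => (q : ℤ))),
      ¬ (l : ℤ) ∣ d → IsSquare ((d : ℤ) : ZMod l) := by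
    intro d hd hld
    obtain ⟨s, hs⟩ := hsq d hd
    obtain ⟨s', hs', hs2⟩ := int_of_sq hs
    refine euler hl2 P hPn hs2 hld ?_
    have h1 := hFr s'
    have h2 : (φ₀ ^ 2) • s' = s' := by
      apply NumberField.RingOfIntegers.ext
      show (φ₀ ^ 2) (s' : F) = s'
      rw [hs']
      exact hfixs s d hs
    rwa [h2] at h1
  have hm1 : IsSquare (-1 : ZMod l) := by
    have h4 := hsq' (-1) (Finset.mem_insert_self _ _) (by
      rw [Int.dvd_neg]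
      intro h
      have := Int.le_of_dvd one_pos h
      have := hlp.two_le
      omega)
    push_cast at h4
    exact h4
  have h2s : IsSquare (2 : ZMod l) := by
    have h4 := hsq' 2 (Finset.mem_insert_of_mem (Finset.mem_insert_self _ _)) (by
      intro h
      have := Int.le_of_dvd two_pos h
      have := hlp.two_le
      omega)
    push_cast at h4
    exact h4
  have hlodd : l % 2 = 1 := Nat.odd_iff.1 (hlp.odd_of_ne_two hl2)
  have hl4 : l % 4 = 1 := by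
    rw [ZMod.exists_sq_eq_neg_one_iff] at hm1
    omega
  have hl8 : l % 8 = 1 := by
    rw [ZMod.exists_sq_eq_two_iff hl2] at h2s
    omega
  refine ⟨hlp, hl8, by exact_mod_cast hlB₀, ?_, ?_⟩
  · intro 𝔭 hp𝔭 hl𝔭
    have hne : 𝔭 ≠ ⊥ := by
      rintro rfl
      rw [Ideal.mem_bot] at hl𝔭
      exact hlp.ne_zero (by exact_mod_cast hl𝔭)
    obtain ⟨P', hP'⟩ := ex_above F (⟨𝔭, hp𝔭, hne⟩ : HeightOneSpectrum (𝓞 K))
    have hlP' : (l : 𝓞 F) ∈ P'.asIdeal := by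
      rw [← nat_bel (K := K), hP']
      exact hl𝔭
    have hPn' := int_mem hlp hlP'
    have hbel : bel ℚ P' = bel ℚ P := by
      apply HeightOneSpectrum.ext
      have hmax : (bel ℚ P').asIdeal.IsMaximal := (bel ℚ P').isMaximal
      refine hmax.eq_of_le (bel ℚ P).isPrime.ne_top fun a ha => ?_
      obtain ⟨n, hn⟩ := (Rat.ringOfIntegersEquiv).symm.surjective a
      have e : a = ((n : ℤ) : 𝓞 ℚ) := by rw [← hn]; simp
      rw [e, mem_bel, map_intCast, hPn'] at ha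
      rw [e, mem_bel, map_intCast, hPn]
      exact ha
    obtain ⟨ρ, hρ⟩ := conj_of (K := ℚ) hbel
    have h1 := hFr.conj ρ hρ
    have h2 := irr_of_trans hm hd1 hR hlp.ne_zero h1 (hstar ρ) (by
      intro r hr r' hr' hne h
      have h3 := hNm P' r hr r' hr' hne h
      have h4 := (hPn' (N : ℤ)).1 (by push_cast; exact h3)
      exact hlN h4)
    rw [hP'] at h2
    exact h2
  · intro q hq
    haveI : Fact q.Prime := ⟨(hS q hq).1⟩
    have h6 := hsq' (q : ℤ) (Finset.mem_insert_of_mem (Finset.mem_insert_of_mem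
      (Finset.mem_image_of_mem _ hq))) (hlS q hq)
    rw [ZMod.exists_sq_eq_prime_iff_of_mod_four_eq_one (hS q hq).2 hl2]
    push_cast at h6
    exact h6

end Pool.Agent.Helper93.Pk
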