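import Pool.Agent.Helper93.Pk.Adm
import Pool.Agent.Helper93.Pk.Prm2
import Pool.Agent.Helper93.Bq.Pat
import Pool.Agent.N891.PQ.TwA

/-!
# Multiquadratic extensions are admissible
-/

set_option autoImplicit false
set_option linter.all false

open IsDedekindDomain NumberField Polynomial
open scoped Classical IntermediateField Pointwise

namespace Pool.Agent.Helper93.Pk

open Pool.Agent.N783.PF (fF rd)
open Pool.Agent.H25P (nat_val nat_val_one prime_unique nat_coprime_mem)

/-- `M` is generated over `K` by the square roots `r l` of the elements `l` of `T`. -/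
structure MQ (K : Type) [Field K] {M : Type} [Field M] [Algebra K M] (T : Finset ℕ) (r : ℕ → M) :
    Prop where
  sq : ∀ l ∈ T, r l ^ 2 = (l : M)
  adj : IntermediateField.adjoin K (r '' (T : Set ℕ)) = ⊤

namespace MQ

variable {K M : Type} [Field K] [NumberField K] [Field M] [NumberField M] [Algebra K M]
  {T : Finset ℕ} {r : ℕ → M}

theorem gen (h : MQ K T r) (E : IntermediateField K M) (hE : ∀ l ∈ T, r l ∈ E) : E = ⊤ := by
  rw [eq_top_iff, ← h.adj, IntermediateField.adjoin_le_iff]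
  rintro _ ⟨l, hl, rfl⟩
  exact hE l hl

/-- the polynomial -/
noncomputable def pol (K : Type) [Field K] (T : Finset ℕ) : K[X] := ∏ l ∈ T, (X ^ 2 - C (l : K))

theorem pol_ne (K : Type) [Field K] (T : Finset ℕ) : pol K T ≠ 0 := by
  rw [pol, Finset.prod_ne_zero_iff]
  intro m _
  exact (monic_X_pow_sub_C (m : K) two_ne_zero).ne_zero

/-- splitting of the polynomial -/
theorem pol_map {E : Type} [Field E] (j : K →+* E) (s : ℕ → E) (hs : ∀ l ∈ T, s l ^ 2 = (l : E)) :
    (pol K T).map j = ∏ l ∈ T, ((X - C (s l)) * (X - C (-(s l)))) := by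
  rw [pol, Polynomial.map_prod]
  refine Finset.prod_congr rfl fun l hl => ?_
  rw [Polynomial.map_sub, Polynomial.map_pow, map_X, map_C, map_natCast, ← hs l hl, C_pow, C_neg]
  ring

theorem pol_splits {E : Type} [Field E] (j : K →+* E) (s : ℕ → E)
    (hs : ∀ l ∈ T, s l ^ 2 = (l : E)) : ((pol K T).map j).Splits := by
  rw [pol_map j s hs]
  refine Splits.prod fun m _ => ?_
  exact (Splits.X_sub_C _).mul (Splits.X_sub_C _)

theorem splitting (h : MQ K T r) : IsSplittingField K M (pol K T) := by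
  refine ⟨pol_splits _ r h.sq, ?_⟩
  rw [← IntermediateField.adjoin_toSubalgebra, ← IntermediateField.top_toSubalgebra]
  congr 1
  refine h.gen _ fun l hl => ?_
  apply IntermediateField.subset_adjoin
  rw [mem_rootSet]
  refine ⟨pol_ne K T, ?_⟩
  rw [aeval_def, eval₂_eq_eval_map, pol_map _ r h.sq, eval_prod]
  apply Finset.prod_eq_zero hl
  simp

theorem galois (h : MQ K T r) : IsGalois K M := by
  haveI := h.splitting
  haveI : Normal K M := Normal.of_isSplittingField (pol K T)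
  exact {}

theorem sgn (h : MQ K T r) (σ : M ≃ₐ[K] M) {l : ℕ} (hl : l ∈ T) : σ (r l) = r l ∨ σ (r l) = -r l := by
  have h2 : (σ (r l)) ^ 2 = (r l) ^ 2 := by
    rw [← map_pow, h.sq l hl, map_natCast]
  exact sq_eq_sq_iff_eq_or_eq_neg.1 h2

theorem eq_one (h : MQ K T r) (σ : M ≃ₐ[K] M) (hσ : ∀ l ∈ T, σ (r l) = r l) : σ = 1 := by
  have h1 := h.gen (IntermediateField.fixedField (Subgroup.zpowers σ)) (fun m hm => by
    rw [IntermediateField.mem_fixedField_iff]
    intro g hg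
    obtain ⟨k, rfl⟩ := Subgroup.mem_zpowers_iff.1 hg
    have h4 : σ ∈ MulAction.stabilizer (M ≃ₐ[K] M) (r m) := hσ m hm
    exact (Subgroup.zpow_mem _ h4 k))
  apply AlgEquiv.ext
  intro x
  have hx : x ∈ (⊤ : IntermediateField K M) := trivial
  rw [← h1] at hx
  exact (IntermediateField.mem_fixedField_iff _ _).1 hx σ (Subgroup.mem_zpowers _)

theorem sq_one (h : MQ K T r) (σ : M ≃ₐ[K] M) : σ * σ = 1 := by
  refine h.eq_one _ fun l hl => ?_
  rw [AlgEquiv.mul_apply]
  rcases h.sgn σ hl with h2 | h2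
  · rw [h2, h2]
  · rw [h2, map_neg, h2, neg_neg]

/-- The degree. -/
theorem finrank (h : MQ K T r)
    (hI : ∀ U ⊆ T, U.Nonempty → ¬ IsSquare (((∏ l ∈ U, l : ℕ)) : K)) :
    Module.finrank K M = 2 ^ T.card := by
  have hinj : Function.Injective (fun l : ℕ => (l : 𝓞 K)) := Nat.cast_injective
  have hex : ∀ d : 𝓞 K, ∃ y : 𝓞 M, ∀ l ∈ T, d = (l : 𝓞 K) → (y : M) = r l := by
    intro d
    by_cases hd : ∃ l ∈ T, d = (l : 𝓞 K)
    · obtain ⟨l, hl, rfl⟩ := hd
      have hint : IsIntegral ℤ (r l) := by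
        have h3 : IsIntegral ℤ (r l ^ 2) := by
          rw [h.sq l hl]
          have h4 := isIntegral_algebraMap (R := ℤ) (A := M) (x := (l : ℤ))
          simpa using h4
        exact h3.of_pow (by norm_num)
      refine ⟨⟨r l, hint⟩, fun l' _ he => ?_⟩
      have : l = l' := hinj he
      subst this
      rfl
    · exact ⟨0, fun l hl he => absurd ⟨l, hl, he⟩ hd⟩
  choose r' hr' using hex
  have hG : Pool.Agent.Helper93.Bq.Gen (T.image fun l : ℕ => (l : 𝓞 K)) M r' := by
    refine ⟨?_, ?_⟩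
    · intro d hd
      obtain ⟨l, hl, rfl⟩ := Finset.mem_image.1 hd
      apply NumberField.RingOfIntegers.ext
      have e1 : ((r' (l : 𝓞 K) ^ 2 : 𝓞 M) : M) = (r' (l : 𝓞 K) : M) ^ 2 := rfl
      rw [e1, hr' _ l hl rfl, h.sq l hl, map_natCast]
      exact (map_natCast (algebraMap (𝓞 M) M) l).symm
    · intro E hE
      refine h.gen E fun l hl => ?_
      have h1 := hE (l : 𝓞 K) (Finset.mem_image_of_mem _ hl)
      rwa [hr' _ l hl rfl] at h1
  have hI' : Pool.Agent.Helper93.Bq.Indep (T.image fun l : ℕ => (l : 𝓞 K)) := by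
    intro U hU hne
    obtain ⟨V, hV, rfl⟩ := Finset.subset_image_iff.1 hU
    have hne' : V.Nonempty := by
      obtain ⟨x, hx⟩ := hne
      obtain ⟨l, hl, -⟩ := Finset.mem_image.1 hx
      exact ⟨l, hl⟩
    have e : ((∏ d ∈ V.image (fun l : ℕ => (l : 𝓞 K)), d : 𝓞 K) : K) = ((∏ l ∈ V, l : ℕ) : K) := by
      rw [Finset.prod_image fun x _ y _ hxy => hinj hxy]
      have e2 : (∏ l ∈ V, ((l : ℕ) : 𝓞 K)) = ((∏ l ∈ V, l : ℕ) : 𝓞 K) := by push_cast; rfl
      rw [e2]
      exact map_natCast (algebraMap (𝓞 K) K) _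
    rw [e]
    exact hI V hV hne'
  have h1 := (Pool.Agent.Helper93.Bq.tower (K := K) 0 (fun v hv => absurd (Ideal.zero_mem _) hv)
    (T.image fun l : ℕ => (l : 𝓞 K)) (fun d _ v hv => absurd (Ideal.zero_mem _) hv) hI' M r' hG).2.1
  rw [h1, Finset.card_image_of_injective _ hinj]

theorem not_cyclic (h : MQ K T r) (hd : Module.finrank K M = 2 ^ T.card) (h2 : 2 ≤ T.card) :
    ¬ IsCyclic (M ≃ₐ[K] M) := by
  haveI := h.galois
  intro hc
  obtain ⟨σ, hσ⟩ := hc.exists_generator
  have h1 : Nat.card (M ≃ₐ[K] M) = orderOf σ := (orderOf_eq_card_of_forall_mem_zpowers hσ).symm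
  rw [IsGalois.card_aut_eq_finrank, hd] at h1
  have h3 : orderOf σ ∣ 2 := orderOf_dvd_of_pow_eq_one (by rw [pow_two]; exact h.sq_one σ)
  have h4 := Nat.le_of_dvd (by norm_num) h3
  have h5 : 2 ^ 2 ≤ 2 ^ T.card := Nat.pow_le_pow_right (by norm_num) h2
  omega

/-- Infinite places. -/
theorem inf (h : MQ K T r) : IsUnramifiedAtInfinitePlaces K M := by
  refine ⟨fun w => ?_⟩
  rw [InfinitePlace.isUnramified_iff]
  by_cases hc : (w.comap (algebraMap K M)).IsComplex
  · exact Or.inr hc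
  · left
    rw [InfinitePlace.not_isComplex_iff_isReal] at hc
    rw [← InfinitePlace.mk_embedding w, InfinitePlace.comap_mk, InfinitePlace.isReal_mk_iff,
      ComplexEmbedding.isReal_iff] at hc
    rw [InfinitePlace.isReal_iff, ComplexEmbedding.isReal_iff]
    let E : IntermediateField K M :=
      { carrier := {x | (starRingEnd ℂ) (w.embedding x) = w.embedding x}
        mul_mem' := by
          intro a b ha hb
          show (starRingEnd ℂ) (w.embedding (a * b)) = w.embedding (a * b)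
          rw [map_mul, map_mul, ha, hb]
        add_mem' := by
          intro a b ha hb
          show (starRingEnd ℂ) (w.embedding (a + b)) = w.embedding (a + b)
          rw [map_add, map_add, ha, hb]
        algebraMap_mem' := by
          intro k
          exact RingHom.congr_fun hc k
        inv_mem' := by
          intro a ha
          show (starRingEnd ℂ) (w.embedding a⁻¹) = w.embedding a⁻¹
          rw [map_inv₀, map_inv₀, ha] }
    have hE : E = ⊤ := by
      refine h.gen E fun l hl => ?_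
      show (starRingEnd ℂ) (w.embedding (r l)) = w.embedding (r l)
      have h1 : (w.embedding (r l)) ^ 2 = ((Real.sqrt l : ℝ) : ℂ) ^ 2 := by
        rw [← map_pow, h.sq l hl, map_natCast, ← Complex.ofReal_pow, Real.sq_sqrt (Nat.cast_nonneg _)]
        simp
      rcases sq_eq_sq_iff_eq_or_eq_neg.1 h1 with h2 | h2
      · rw [h2, Complex.conj_ofReal]
      · rw [h2, map_neg, Complex.conj_ofReal]
    ext x
    have hx : x ∈ E := by rw [hE]; trivial
    exact hx

/-- Unramified outside `T`. -/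
theorem ram (h : MQ K T r) (h4 : ∀ l ∈ T, l % 4 = 1) (w : HeightOneSpectrum (𝓞 M))
    (hw : w.asIdeal.ramificationIdx (𝓞 K) ≠ 1) : ∃ l ∈ T, (l : 𝓞 M) ∈ w.asIdeal := by
  haveI := h.galois
  by_contra hcon
  push Not at hcon
  apply hw
  rw [ram_iff]
  intro σ hσ
  refine h.eq_one σ fun l hl => ?_
  refine (h.sgn σ hl).resolve_right fun hneg => ?_
  obtain ⟨k, hk⟩ : ∃ k : ℕ, l = 4 * k + 1 := ⟨l / 4, by have := h4 l hl; omega⟩
  have e : ((1 + r l) / 2) ^ 2 - (1 + r l) / 2 = (k : M) := by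
    have h1 := h.sq l hl
    rw [hk] at h1 ⊢
    push_cast at h1
    linear_combination h1 / 4
  have hint : IsIntegral ℤ ((1 + r l) / 2) := by
    refine ⟨X ^ 2 - X - C (k : ℤ), ?_, ?_⟩
    · monicity!
    · rw [eval₂_sub, eval₂_sub, eval₂_pow, eval₂_X, eval₂_C, eq_intCast, e, Int.cast_natCast, sub_self]
  have h1 : w.valuation M (σ ((1 + r l) / 2) - (1 + r l) / 2) < 1 := hσ ⟨(1 + r l) / 2, hint⟩
  have e1 : σ ((1 + r l) / 2) - (1 + r l) / 2 = -r l := by
    rw [map_div₀, map_add, map_one, hneg, map_ofNat]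
    ring
  rw [e1, Valuation.map_neg] at h1
  apply hcon l hl
  rw [← nat_val, ← h.sq l hl, map_pow]
  exact pow_lt_one₀ zero_le h1 two_ne_zero

end MQ

/-- Squares in `ℚ_q`. -/
theorem sq_q {q : ℕ} [Fact q.Prime] (hq2 : q ≠ 2) {D : ℕ} (hD : ¬ q ∣ D)
    (hs : IsSquare (D : ZMod q)) : ∃ δ : ℚ_[q], δ ^ 2 = (D : ℚ_[q]) := by
  obtain ⟨z₀, hz₀⟩ := hs
  obtain ⟨z, rfl⟩ := ZMod.intCast_surjective z₀
  have hdvd : (q : ℤ) ∣ z ^ 2 - D := by
    rw [← ZMod.intCast_zmod_eq_zero_iff_dvd]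
    push_cast
    rw [hz₀]
    ring
  have hz : ¬ (q : ℤ) ∣ z := by
    intro h
    apply hD
    have h1 : (q : ℤ) ∣ D := by
      have h2 : (q : ℤ) ∣ z ^ 2 := dvd_pow h two_ne_zero
      have := dvd_sub h2 hdvd
      simpa using this
    exact_mod_cast h1
  obtain ⟨F, hF⟩ : ∃ F : ℤ[X], F = X ^ 2 - C (D : ℤ) := ⟨_, rfl⟩
  have h1 : F.aeval (z : ℤ_[q]) = ((z ^ 2 - (D : ℤ) : ℤ) : ℤ_[q]) := by
    rw [hF, map_sub, map_pow, aeval_X, aeval_C]
    simp
  have h2 : F.derivative.aeval (z : ℤ_[q]) = ((2 * z : ℤ) : ℤ_[q]) := by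
    rw [hF]
    simp only [derivative_sub, derivative_X_pow, derivative_C, sub_zero, map_mul, aeval_C, map_pow,
      aeval_X, one_pow, mul_one]
    simp
  have h3 : ‖F.aeval (z : ℤ_[q])‖ < ‖F.derivative.aeval (z : ℤ_[q])‖ ^ 2 := by
    rw [h1, h2]
    have h4 : ‖((z ^ 2 - (D : ℤ) : ℤ) : ℤ_[q])‖ < 1 := by
      rw [PadicInt.norm_int_lt_one_iff_dvd]
      exact hdvd
    have h5 : ‖((2 * z : ℤ) : ℤ_[q])‖ = 1 := by
      refine le_antisymm (PadicInt.norm_le_one _) (not_lt.1 fun h => ?_)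
      rw [PadicInt.norm_int_lt_one_iff_dvd] at h
      rcases (Nat.prime_iff_prime_int.1 (Fact.out : q.Prime)).dvd_or_dvd h with h | h
      · have h6 : q ∣ 2 := by exact_mod_cast h
        exact hq2 ((Nat.prime_dvd_prime_iff_eq Fact.out Nat.prime_two).1 h6)
      · exact hz h
    rw [h5, one_pow]
    exact h4
  obtain ⟨z', hz', -⟩ := hensels_lemma h3
  refine ⟨(z' : ℚ_[q]), ?_⟩
  rw [hF, map_sub, map_pow, aeval_X, aeval_C, sub_eq_zero] at hz'
  have h5 := congrArg (fun x : ℤ_[q] => (x : ℚ_[q])) hz'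
  simpa using h5

end Pool.Agent.Helper93.Pk
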