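import Pool.Agent.Helper93.Pk.Mq
import Pool.Agent.N498.PQ.Cpl

/-!
# Multiquadratic extensions are admissible, 2
-/

set_option autoImplicit false
set_option linter.all false

open IsDedekindDomain NumberField Polynomial WithZero
open scoped Classical IntermediateField Pointwise

namespace Pool.Agent.Helper93.Pk

open Pool.Agent.N783.PF (fF rd)
open Pool.Agent.H25P (nat_val nat_val_one prime_unique nat_coprime_mem not_ev)

open Rat.HeightOneSpectrum in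
theorem val_rat {l : ℕ} (hl : l.Prime) {v : HeightOneSpectrum (𝓞 ℚ)}
    (h : (l : 𝓞 ℚ) ∈ v.asIdeal) : v.valuation ℚ (l : ℚ) = exp (-1 : ℤ) := by
  have hm : ∀ n : ℤ, ((n : ℤ) : 𝓞 ℚ) ∈ v.asIdeal ↔ (l : ℤ) ∣ n := int_mem hl h
  have hs : v.asIdeal = Ideal.span {(l : 𝓞 ℚ)} := by
    ext a
    obtain ⟨n, hn⟩ := (Rat.ringOfIntegersEquiv).symm.surjective a
    have e : a = ((n : ℤ) : 𝓞 ℚ) := by rw [← hn]; simp
    rw [e, hm, Ideal.mem_span_singleton]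
    constructor
    · rintro ⟨k, rfl⟩
      exact ⟨(k : 𝓞 ℚ), by push_cast; rfl⟩
    · intro h2
      rw [← hm]
      exact Ideal.mem_of_dvd _ h2 h
  have hl0 : (l : 𝓞 ℚ) ≠ 0 := Nat.cast_ne_zero.2 hl.ne_zero
  have e : (l : ℚ) = algebraMap (𝓞 ℚ) ℚ (l : 𝓞 ℚ) := by rw [map_natCast]
  rw [e, HeightOneSpectrum.valuation_of_algebraMap]
  exact HeightOneSpectrum.intValuation_singleton v hl0 hs

/-- Unramified primes of `ℚ` in `K`. -/
theorem ex_unr (K : Type) [Field K] [NumberField K] : ∃ B : ℕ, B ≠ 0 ∧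
    ∀ l : ℕ, l.Prime → ¬ l ∣ B → ∀ w : HeightOneSpectrum (𝓞 K), (l : 𝓞 K) ∈ w.asIdeal →
      w.valuation K (l : K) = exp (-1 : ℤ) := by
  obtain ⟨δ, hδ, h⟩ := fin_ram ℚ K
  refine ⟨δ.natAbs, Int.natAbs_ne_zero.2 hδ, fun l hl hd w hw => ?_⟩
  have h1 : (δ : 𝓞 K) ∉ w.asIdeal := by
    rw [int_mem hl hw]
    intro h2
    exact hd (Int.natCast_dvd.1 h2)
  obtain ⟨v, hv⟩ := h w h1
  have h2 : (l : 𝓞 ℚ) ∈ v.asIdeal := by
    rw [eq_bel hv, nat_bel]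
    exact hw
  have h3 := hv (l : ℚ)
  rw [map_natCast] at h3
  rw [h3]
  exact val_rat hl h2

variable {K M : Type} [Field K] [NumberField K] [Field M] [NumberField M] [Algebra K M]
  {T : Finset ℕ} {r : ℕ → M}

/-- Independence. -/
theorem indep (hT : ∀ l ∈ T, l.Prime) (hv : ∀ l ∈ T, ∀ w : HeightOneSpectrum (𝓞 K),
    (l : 𝓞 K) ∈ w.asIdeal → w.valuation K (l : K) = exp (-1 : ℤ)) :
    ∀ U ⊆ T, U.Nonempty → ¬ IsSquare (((∏ l ∈ U, l : ℕ)) : K) := by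
  rintro U hU ⟨l, hl⟩ ⟨y, hy⟩
  obtain ⟨w, hw⟩ := ex_over K (hT l (hU hl))
  have h1 := hv l (hU hl) w hw
  have h2 : w.valuation K (((∏ l ∈ U.erase l, l : ℕ)) : K) = 1 := by
    rw [nat_val_one, Nat.cast_prod]
    intro h
    haveI := w.isPrime
    obtain ⟨l', hl', hw'⟩ := (Ideal.IsPrime.prod_mem_iff).1 h
    exact (Finset.ne_of_mem_erase hl') (prime_unique (hT l' (hU (Finset.mem_of_mem_erase hl')))
      (hT l (hU hl)) hw' hw)
  have h3 : w.valuation K (((∏ l ∈ U, l : ℕ)) : K) = exp (-1 : ℤ) := by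
    rw [← Finset.mul_prod_erase U (fun l => l) hl, Nat.cast_mul, map_mul, h1, h2, mul_one]
  refine not_ev h3 ⟨y, ?_⟩
  rw [hy, map_mul, pow_two]

/-- Embedding in a completion. -/
theorem MQ.emb (h : MQ K T r) {E : Type} [Field E] [Algebra K E]
    (hs : ∀ l ∈ T, ∃ s : E, s ^ 2 = (l : E)) : Nonempty (M →ₐ[K] E) := by
  haveI := h.splitting
  choose! s hs using hs
  exact ⟨Polynomial.IsSplittingField.lift M (MQ.pol K T) (MQ.pol_splits _ s hs)⟩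

theorem sq_cpl {p : ℕ} (hp : p.Prime) {u : HeightOneSpectrum (𝓞 K)} (hu : (p : 𝓞 K) ∈ u.asIdeal)
    {l : ℕ} (hs : ∀ [Fact p.Prime], ∃ δ : ℚ_[p], δ ^ 2 = (l : ℚ_[p])) :
    ∃ s : u.adicCompletion K, s ^ 2 = (l : u.adicCompletion K) := by
  haveI : Fact p.Prime := ⟨hp⟩
  obtain ⟨δ, hδ⟩ := hs
  obtain ⟨ι, -⟩ := Pool.Agent.N498.PQ.cpl K p u hu
  exact ⟨ι δ, by rw [← map_pow, hδ, map_natCast]⟩

theorem MQ.adm (h : MQ K T r) {f : (𝓞 K)[X]} {J : Finset ℕ} (hJ : ∀ q ∈ J, q.Prime ∧ q ≠ 2)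
    {B : ℕ} (hT : ∀ l ∈ T, l ∈ Pset K f J B) (hJT : ∀ l ∈ T, l ∉ J) (h2 : 2 ≤ T.card)
    (hv : ∀ l ∈ T, ∀ w : HeightOneSpectrum (𝓞 K),
      (l : 𝓞 K) ∈ w.asIdeal → w.valuation K (l : K) = exp (-1 : ℤ)) :
    Adm K M J (Pset K f J B) ∧ Module.finrank K M = 2 ^ T.card := by
  have hd := h.finrank (indep (fun l hl => (hT l hl).1) hv)
  refine ⟨⟨h.galois, ⟨_, hd⟩, h.not_cyclic hd h2, h.inf, ?_, ?_⟩, hd⟩
  · intro u hu
    refine h.emb fun l hl => ?_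
    obtain ⟨l1, l2, l3, l4, l5⟩ := hT l hl
    rcases hu with hu | ⟨q, hq, hu⟩
    · exact sq_cpl Nat.prime_two (by exact_mod_cast hu) (Pool.Agent.N891.PQ.sq_two l l2)
    · haveI : Fact q.Prime := ⟨(hJ q hq).1⟩
      refine sq_cpl (hJ q hq).1 hu (sq_q (hJ q hq).2 ?_ (l5 q hq))
      intro hd
      have := (Nat.prime_dvd_prime_iff_eq (hJ q hq).1 l1).1 hd
      subst this
      exact hJT q hl hq
  · intro w hw
    obtain ⟨l, hl, hlw⟩ := h.ram (fun l hl => by have := (hT l hl).2.1; omega) w hw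
    exact ⟨l, hT l hl, hlw⟩

end Pool.Agent.Helper93.Pk
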