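import Pool.Agent.Helper93.Pk.Frob
import Pool.Agent.Helper93.Pf.Prm

/-!
# Many primes modulo which a polynomial over a number field is irreducible
-/

set_option autoImplicit false
set_option linter.all false

open IsDedekindDomain NumberField Polynomial Filter
open scoped Classical Pointwise IntermediateField

namespace Pool.Agent.Helper93.Pk

open Pool.Agent.N783.PF (rd fF)
open Pool.Agent.N922.PQ (Gen)
open Pool.Agent.Helper93.X49 (absNorm_eq mem_iff)
open Pool.Agent.Helper93.Pf (euler int_of_sq)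

open Rat.HeightOneSpectrum in
/-- The theorem of Chebotarev for the count of rational primes. -/
theorem cheb (F : Type) [Field F] [NumberField F] (Φ : F ≃ₐ[ℚ] F) {B : ℤ} (hB0 : B ≠ 0)
    (A : ℕ → Prop)
    (h : ∀ l : ℕ, l.Prime → ¬ (l : ℤ) ∣ B → ∀ P : HeightOneSpectrum (𝓞 F),
      (∀ n : ℤ, ((n : ℤ) : 𝓞 F) ∈ P.asIdeal ↔ (l : ℤ) ∣ n) → Fr Φ P l → A l) :
    ∃ c : ℝ, 0 < c ∧ ∀ᶠ X : ℕ in atTop, c * (Nat.primeCounting X : ℝ) ≤
      (Set.ncard {l : ℕ | A l ∧ l ≤ X} : ℝ) := by
  have hfin : {v : HeightOneSpectrum (𝓞 ℚ) | ((B : ℤ) : 𝓞 ℚ) ∈ v.asIdeal}.Finite := by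
    have h0 : ((B : ℤ) : 𝓞 ℚ) ≠ 0 := by exact_mod_cast hB0
    have h1 : Ideal.span {((B : ℤ) : 𝓞 ℚ)} ≠ ⊥ := by
      rwa [Ne, Ideal.span_singleton_eq_bot]
    refine (Ideal.finite_factors h1).subset ?_
    intro v hv
    show v.asIdeal ∣ _
    rw [Ideal.dvd_iff_le, Ideal.span_singleton_le_iff_mem]
    exact hv
  obtain ⟨c, hc, h1⟩ := Pool.Agent.K3h73.RS.t_CHEB ℚ F Φ hfin.toFinset
  refine ⟨c, hc, ?_⟩
  filter_upwards [h1] with Y hY
  refine hY.trans ?_
  set A' : Set ℕ := {l : ℕ | A l ∧ l ≤ Y} with hA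
  have hfinA : A'.Finite := (Set.finite_Iic Y).subset fun l hl => hl.2
  have := hfinA.to_subtype
  have hcard : (Nat.card A' : ℝ) = (A'.ncard : ℝ) := by rw [Nat.card_coe_set_eq]
  rw [← hcard]
  have key : ∀ v : HeightOneSpectrum (𝓞 ℚ), (v ∉ hfin.toFinset ∧
      ∃ P : HeightOneSpectrum (𝓞 F), Pool.Agent.K3h30.RS.Above {v} P ∧
        ∀ x : 𝓞 F, P.valuation F (Φ (x : F) - (x : F) ^ (Ideal.absNorm v.asIdeal)) < 1) →
      Ideal.absNorm v.asIdeal ≤ Y → natGenerator v ∈ A' := by
    rintro v ⟨hv, P, hP, hval⟩ hn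
    rw [Set.Finite.mem_toFinset] at hv
    have hv' : ((B : ℤ) : 𝓞 ℚ) ∉ v.asIdeal := hv
    rw [absNorm_eq] at hval hn
    set l := natGenerator v with hl
    have hlp : l.Prime := prime_natGenerator v
    rw [mem_iff, ← hl] at hv'
    -- the prime `P`
    obtain ⟨v', hv'', hPv⟩ := hP
    rw [Set.mem_singleton_iff] at hv''
    subst hv''
    have hPn : ∀ n : ℤ, ((n : ℤ) : 𝓞 F) ∈ P.asIdeal ↔ (l : ℤ) ∣ n := by
      intro n
      rw [hl, ← mem_iff, ← hPv, Ideal.mem_comap, map_intCast]
    refine ⟨h l hlp hv' P hPn fun x => ?_, hn⟩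
    rw [mem_val]
    exact hval x
  exact_mod_cast Nat.card_le_card_of_injective
    (fun v : {v : HeightOneSpectrum (𝓞 ℚ) // (v ∉ hfin.toFinset ∧
      ∃ P : HeightOneSpectrum (𝓞 F), Pool.Agent.K3h30.RS.Above {v} P ∧
        ∀ x : 𝓞 F, P.valuation F (Φ (x : F) - (x : F) ^ (Ideal.absNorm v.asIdeal)) < 1) ∧
      Ideal.absNorm v.asIdeal ≤ Y} => (⟨natGenerator v.1, key v.1 v.2.1 v.2.2⟩ : A'))
    (fun v w h => by
      apply Subtype.ext
      have h4 : natGenerator v.1 = natGenerator w.1 := congrArg Subtype.val h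
      exact (primesEquiv (R := 𝓞 ℚ)).injective (Subtype.ext h4))

theorem gal_alg {E : Type} [Field E] [CharZero E] (A : Algebra ℚ E) (h : @IsGalois ℚ _ E _ A) :
    @IsGalois ℚ _ E _ DivisionRing.toRatAlgebra := by
  have e : A = DivisionRing.toRatAlgebra := Subsingleton.elim _ _
  subst e
  exact h

theorem nrm_closure (k : Type) [Field k] : Normal k (AlgebraicClosure k) := inferInstance

/-- The Galois closure. -/
theorem exists_gal (E : Type) [Field E] [NumberField E] : ∃ (F : Type) (_ : Field F)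
    (_ : NumberField F) (_ : E →+* F), IsGalois ℚ F := by
  let Ω := AlgebraicClosure ℚ
  let N : IntermediateField ℚ Ω := IntermediateField.normalClosure ℚ E Ω
  let σ : E →ₐ[ℚ] Ω := IsAlgClosed.lift
  haveI : FiniteDimensional ℚ N := normalClosure.is_finiteDimensional ℚ E Ω
  haveI : CharZero N := charZero_of_injective_algebraMap (algebraMap ℚ N).injective
  haveI : Normal ℚ Ω := Pool.Agent.Helper93.Pf.normal_alg _
    (nrm_closure ℚ)
  have hN : @Normal ℚ N _ _ _ := normalClosure.normal ℚ E Ω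
  have hG : IsGalois ℚ N := { __ := hN }
  refine ⟨N, inferInstance, ?_, ?_, ?_⟩
  · exact NumberField.of_module_finite ℚ N
  · exact (IntermediateField.inclusion (AlgHom.fieldRange_le_normalClosure σ)).toRingHom.comp
      σ.rangeRestrict.toRingHom
  · exact gal_alg _ hG

/-- A field with all the zeros. -/
theorem exists_F (K : Type) [Field K] [NumberField K] (f : (𝓞 K)[X]) (hm : f.Monic)
    (hirr : Irreducible (fF f)) (D : Finset ℤ) : ∃ (F : Type) (_ : Field F)
    (_ : NumberField F) (_ : Algebra K F) (R : Finset (𝓞 F)), IsGalois ℚ F ∧ Rts f R ∧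
      ∀ d ∈ D, ∃ s : F, s ^ 2 = (d : F) := by
  let h : K[X] := fF f * ∏ d ∈ D, (X ^ 2 - C (d : K))
  have hh0 : h ≠ 0 := by
    refine mul_ne_zero (hm.map _).ne_zero ?_
    rw [Finset.prod_ne_zero_iff]
    intro d _
    exact (monic_X_pow_sub_C (d : K) two_ne_zero).ne_zero
  haveI : NumberField h.SplittingField := NumberField.of_module_finite K _
  obtain ⟨F, _, _, ι, hgal⟩ := exists_gal h.SplittingField
  letI : Algebra K F := (ι.comp (algebraMap K h.SplittingField)).toAlgebra
  have halg : algebraMap K F = ι.comp (algebraMap K h.SplittingField) := rfl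
  have hs : (h.map (algebraMap K F)).Splits := by
    rw [halg, ← Polynomial.map_map]
    exact (SplittingField.splits h).map ι
  have hne : h.map (algebraMap K F) ≠ 0 :=
    (Polynomial.map_ne_zero_iff (algebraMap K F).injective).2 hh0
  have hsf : ((fF f).map (algebraMap K F)).Splits :=
    Splits.of_dvd hs hne (Polynomial.map_dvd _ (dvd_mul_right _ _))
  have hsep : ((fF f).map (algebraMap K F)).Separable := hirr.separable.map
  have hnd : ((fF f).map (algebraMap K F)).roots.Nodup := nodup_roots hsep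
  have hmF : ((fF f).map (algebraMap K F)).Monic := (hm.map _).map _
  have hprod : (fF f).map (algebraMap K F) =
      ∏ t ∈ ((fF f).map (algebraMap K F)).roots.toFinset, (X - C t) := by
    have h1 : (fF f).map (algebraMap K F) =
        (((fF f).map (algebraMap K F)).roots.map fun t => X - C t).prod :=
      hsf.eq_prod_roots_of_monic hmF
    rw [Finset.prod, Multiset.toFinset_val, hnd.dedup]
    exact h1
  have hint : ∀ t ∈ ((fF f).map (algebraMap K F)).roots.toFinset, ∃ r : 𝓞 F, (r : F) = t := by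
    intro t ht
    rw [Multiset.mem_toFinset, mem_roots hmF.ne_zero, IsRoot, eval_map] at ht
    have h1 : IsIntegral (𝓞 K) t := by
      refine ⟨f, hm, ?_⟩
      have h2 : eval₂ (algebraMap K F) t (fF f) =
          eval₂ ((algebraMap K F).comp (algebraMap (𝓞 K) K)) t f := by
        rw [fF, eval₂_map]
      rw [h2] at ht
      exact ht
    exact ⟨⟨t, isIntegral_trans (R := ℤ) _ h1⟩, rfl⟩
  choose! lft hlft using hint
  refine ⟨F, inferInstance, inferInstance, inferInstance,
    ((fF f).map (algebraMap K F)).roots.toFinset.image lft, hgal, ?_, ?_⟩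
  · apply Polynomial.map_injective (algebraMap (𝓞 F) F) NumberField.RingOfIntegers.coe_injective
    rw [Polynomial.map_prod, Finset.prod_image]
    · have e1 : (f.map (algebraMap (𝓞 K) (𝓞 F))).map (algebraMap (𝓞 F) F) =
          (fF f).map (algebraMap K F) := by
        rw [fF, Polynomial.map_map, Polynomial.map_map]
        rfl
      rw [e1, hprod]
      refine Finset.prod_congr ?_ fun t ht => ?_
      · rw [← hprod]
      · rw [← hprod] at ht
        rw [Polynomial.map_sub, map_X, map_C]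
        congr 2
        exact (hlft t ht).symm
    · intro t ht t' ht' h
      rw [← hlft t ht, ← hlft t' ht', h]
  · intro d hd
    have h2 : ((X ^ 2 - C (d : K)).map (algebraMap K F)).Splits := by
      apply Splits.of_dvd hs hne
      exact Polynomial.map_dvd _ ((Finset.dvd_prod_of_mem _ hd).mul_left _)
    obtain ⟨x, hx⟩ := h2.exists_eval_eq_zero (by
      rw [Polynomial.degree_map, degree_X_pow_sub_C (by norm_num)]
      norm_num)
    refine ⟨x, ?_⟩
    rw [Polynomial.eval_map, Polynomial.eval₂_sub, Polynomial.eval₂_pow, Polynomial.eval₂_X,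
      Polynomial.eval₂_C, sub_eq_zero, map_intCast] at hx
    exact hx

end Pool.Agent.Helper93.Pk
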