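import Mathlib

/-!
# Unramified primes, the inertia group, change of base

`M / K` is a Galois extension of number fields, `L / K` is any finite extension and `Ω` is generated by `L`
and `M`. A prime of `Ω` over a prime of `M` which is unramified over `K` is unramified over `L`.
-/

set_option autoImplicit false
set_option linter.all false

open IsDedekindDomain NumberField WithZero
open scoped Classical Pointwise IntermediateField

namespace Pool.Agent.Helper93.Pk

section basic

variable {K M : Type} [Field K] [NumberField K] [Field M] [NumberField M] [Algebra K M]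

/-- The valuation of `w` on `K` is that of `v`. -/
def Agree (w : HeightOneSpectrum (𝓞 M)) (v : HeightOneSpectrum (𝓞 K)) : Prop :=
  ∀ x : K, w.valuation M (algebraMap K M x) = v.valuation K x

/-- The inertia group of `w` is trivial. -/
def InTriv (K : Type) [Field K] [NumberField K] {M : Type} [Field M] [NumberField M] [Algebra K M]
    (w : HeightOneSpectrum (𝓞 M)) : Prop :=
  ∀ σ : M ≃ₐ[K] M, (∀ x : 𝓞 M, w.valuation M (σ (x : M) - x) < 1) → σ = 1

/-- The prime below. -/
noncomputable def bel (K : Type) [Field K] [NumberField K] {M : Type} [Field M] [NumberField M]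
    [Algebra K M] (w : HeightOneSpectrum (𝓞 M)) : HeightOneSpectrum (𝓞 K) where
  asIdeal := w.asIdeal.under (𝓞 K)
  isPrime := by
    haveI := w.isPrime
    exact Ideal.comap_isPrime _ _
  ne_bot := by
    intro h0
    exact w.ne_bot (Ideal.eq_bot_of_comap_eq_bot h0)

theorem mem_bel {w : HeightOneSpectrum (𝓞 M)} {a : 𝓞 K} :
    a ∈ (bel K w).asIdeal ↔ algebraMap (𝓞 K) (𝓞 M) a ∈ w.asIdeal := Iff.rfl

instance (w : HeightOneSpectrum (𝓞 M)) : w.asIdeal.LiesOver (bel K w).asIdeal := ⟨rfl⟩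

theorem nat_bel {w : HeightOneSpectrum (𝓞 M)} (n : ℕ) :
    (n : 𝓞 K) ∈ (bel K w).asIdeal ↔ (n : 𝓞 M) ∈ w.asIdeal := by
  rw [mem_bel, map_natCast]

theorem eq_bel {w : HeightOneSpectrum (𝓞 M)} {v : HeightOneSpectrum (𝓞 K)} (h : Agree w v) :
    v = bel K w := by
  apply HeightOneSpectrum.ext
  ext a
  rw [mem_bel, ← HeightOneSpectrum.valuation_lt_one_iff_mem (K := K),
    ← HeightOneSpectrum.valuation_lt_one_iff_mem (K := M), ← h]
  rfl

/-- The ramification index. -/
theorem val_pow (w : HeightOneSpectrum (𝓞 M)) (x : K) :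
    (bel K w).valuation K x ^ (w.asIdeal.ramificationIdx (𝓞 K)) =
      w.valuation M (algebraMap K M x) := by
  rw [← HeightOneSpectrum.valuation_liesOver M (bel K w) w x]
  congr 1
  haveI := w.isPrime
  exact (Ideal.ramificationIdx'_eq_ramificationIdx _ _ (bel K w).ne_bot).symm

theorem agree_iff (w : HeightOneSpectrum (𝓞 M)) :
    (∃ v : HeightOneSpectrum (𝓞 K), Agree w v) ↔ w.asIdeal.ramificationIdx (𝓞 K) = 1 := by
  constructor
  · rintro ⟨v, hv⟩
    have hv' := eq_bel hv
    subst hv'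
    obtain ⟨π, hπ⟩ := (bel K w).valuation_exists_uniformizer K
    have h1 := val_pow (K := K) w π
    rw [hv π, hπ, ← exp_nsmul, exp_inj] at h1
    simp only [nsmul_eq_mul] at h1
    omega
  · intro h
    refine ⟨bel K w, fun x => ?_⟩
    have h1 := val_pow (K := K) w x
    rw [h, pow_one] at h1
    exact h1.symm

theorem smul_coe (σ : M ≃ₐ[K] M) (x : 𝓞 M) : ((σ • x : 𝓞 M) : M) = σ (x : M) := rfl

theorem ram_iff [IsGalois K M] (w : HeightOneSpectrum (𝓞 M)) :
    w.asIdeal.ramificationIdx (𝓞 K) = 1 ↔ InTriv K w := by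
  haveI := w.isPrime
  haveI := (bel K w).isPrime
  haveI := (bel K w).isMaximal
  have h1 : Nat.card (w.asIdeal.inertia (M ≃ₐ[K] M)) = w.asIdeal.ramificationIdx (𝓞 K) := by
    rw [Ideal.card_inertia_eq_ramificationIdxIn (bel K w).asIdeal w.asIdeal,
      Ideal.ramificationIdxIn_eq_ramificationIdx (bel K w).asIdeal w.asIdeal (M ≃ₐ[K] M)]
  have h2 : ∀ σ : M ≃ₐ[K] M, σ ∈ w.asIdeal.inertia (M ≃ₐ[K] M) ↔
      ∀ x : 𝓞 M, w.valuation M (σ (x : M) - x) < 1 := by
    intro σ
    refine forall_congr' fun x => ?_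
    have e : σ (x : M) - x = ((σ • x - x : 𝓞 M) : M) := rfl
    rw [e]
    exact (HeightOneSpectrum.valuation_lt_one_iff_mem (K := M) w _).symm
  rw [← h1]
  constructor
  · intro h σ hσ
    have h3 : w.asIdeal.inertia (M ≃ₐ[K] M) = ⊥ := Subgroup.card_eq_one.1 h
    have h4 := (h2 σ).2 hσ
    rw [h3] at h4
    exact Subgroup.mem_bot.1 h4
  · intro h
    rw [Subgroup.card_eq_one, eq_bot_iff]
    intro σ hσ
    rw [Subgroup.mem_bot]
    exact h σ ((h2 σ).1 hσ)

theorem unr_iff [IsGalois K M] (w : HeightOneSpectrum (𝓞 M)) :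
    (∃ v : HeightOneSpectrum (𝓞 K), Agree w v) ↔ InTriv K w := (agree_iff w).trans (ram_iff w)

/-- Density of `K` in `M` at `w`. -/
def Dns (K : Type) [Field K] [NumberField K] {M : Type} [Field M] [NumberField M] [Algebra K M]
    (w : HeightOneSpectrum (𝓞 M)) : Prop :=
  ∀ s : M, s ≠ 0 → ∃ s₀ : K, w.valuation M (s - algebraMap K M s₀) < w.valuation M s

/-- Stronger form of the density. -/
theorem Dns.strong {w : HeightOneSpectrum (𝓞 M)} (h : Dns K w) (c : M) {ε : WithZero (Multiplicative ℤ)}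
    (hε : ε ≠ 0) : ∃ k : K, w.valuation M (c - algebraMap K M k) < ε := by
  by_contra hcon
  push Not at hcon
  have key : ∀ n : ℕ, ∃ k : K, w.valuation M (c - algebraMap K M k) ≤
      exp (log (w.valuation M c) - (n : ℤ)) := by
    have h0 := hcon 0
    rw [map_zero, sub_zero] at h0
    intro n
    induction n with
    | zero =>
      refine ⟨0, ?_⟩
      have h1 : w.valuation M c ≠ 0 := (lt_of_lt_of_le (zero_lt_iff.2 hε) h0).ne'
      rw [map_zero, sub_zero, Nat.cast_zero, sub_zero, exp_log h1]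
    | succ n ih =>
      obtain ⟨k, hk⟩ := ih
      have h1 : w.valuation M (c - algebraMap K M k) ≠ 0 :=
        (lt_of_lt_of_le (zero_lt_iff.2 hε) (hcon k)).ne'
      have h2 : c - algebraMap K M k ≠ 0 := (Valuation.ne_zero_iff _).1 h1
      obtain ⟨s₀, hs₀⟩ := h _ h2
      refine ⟨k + s₀, ?_⟩
      have h3 := hcon (k + s₀)
      have h4 : w.valuation M (c - algebraMap K M (k + s₀)) ≠ 0 :=
        (lt_of_lt_of_le (zero_lt_iff.2 hε) h3).ne'
      have e : c - algebraMap K M (k + s₀) = c - algebraMap K M k - algebraMap K M s₀ := by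
        rw [map_add]
        ring
      have h5 : w.valuation M (c - algebraMap K M (k + s₀)) <
          exp (log (w.valuation M c) - (n : ℤ)) := by
        rw [e]
        exact lt_of_lt_of_le hs₀ hk
      rw [← exp_log h4, exp_lt_exp] at h5
      rw [← exp_log h4, exp_le_exp, Nat.cast_succ]
      omega
  obtain ⟨k, hk⟩ := key (Int.toNat (log (w.valuation M c) - log ε + 1))
  have h1 := exp_le_exp.1 ((exp_log hε).le.trans ((hcon k).trans hk))
  omega

/-- Density at the conjugate primes. -/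
theorem Dns.conj {w w' : HeightOneSpectrum (𝓞 M)} (σ : M ≃ₐ[K] M)
    (hσ : ∀ x : M, w'.valuation M x = w.valuation M (σ x)) (h : Dns K w) : Dns K w' := by
  intro s hs
  obtain ⟨k, hk⟩ := h (σ s) ((map_ne_zero σ).2 hs)
  refine ⟨k, ?_⟩
  rw [hσ, hσ, map_sub, σ.commutes]
  exact hk

end basic

section base

variable {K L M Ω : Type} [Field K] [NumberField K] [Field L] [NumberField L] [Algebra K L]
  [Field M] [NumberField M] [Algebra K M] [Field Ω] [NumberField Ω] [Algebra K Ω] [Algebra L Ω]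
  [Algebra M Ω] [IsScalarTower K M Ω] [IsScalarTower K L Ω]

/-- `Ω` is Galois over `L`. -/
theorem gal_up [IsGalois K M] {γ : M} (hK : K⟮γ⟯ = ⊤) (hL : L⟮algebraMap M Ω γ⟯ = ⊤) :
    IsGalois L Ω := by
  have hi : IsIntegral K γ := Algebra.IsIntegral.isIntegral γ
  have hs : (minpoly K γ).Separable := IsGalois.separable K γ
  have hsp : ((minpoly K γ).map (algebraMap K M)).Splits := IsGalois.splits K γ
  have h1 : ((minpoly K γ).map (algebraMap K L)).Separable := hs.map
  haveI : ((minpoly K γ).map (algebraMap K L)).IsSplittingField L Ω := by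
    refine ⟨?_, ?_⟩
    · rw [Polynomial.map_map, ← IsScalarTower.algebraMap_eq K L Ω, IsScalarTower.algebraMap_eq K M Ω,
        ← Polynomial.map_map]
      exact hsp.map _
    · rw [eq_top_iff]
      have h2 : Algebra.adjoin L {algebraMap M Ω γ} = ⊤ := by
        have h3 : (L⟮algebraMap M Ω γ⟯).toSubalgebra = ⊤ := by
          rw [hL]
          exact IntermediateField.top_toSubalgebra
        rw [← h3, IntermediateField.adjoin_simple_toSubalgebra_of_isAlgebraic]
        exact Algebra.IsAlgebraic.isAlgebraic _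
      rw [← h2]
      refine Algebra.adjoin_mono ?_
      rw [Set.singleton_subset_iff, Polynomial.mem_rootSet]
      refine ⟨?_, ?_⟩
      · exact Polynomial.map_ne_zero (minpoly.ne_zero hi)
      · rw [Polynomial.aeval_map_algebraMap, Polynomial.aeval_algebraMap_apply, minpoly.aeval,
          map_zero]
  exact IsGalois.of_separable_splitting_field h1

/-- Inertia groups restrict. -/
theorem intriv_up [IsGalois K M] {γ : M} (hL : L⟮algebraMap M Ω γ⟯ = ⊤)
    (P : HeightOneSpectrum (𝓞 Ω)) (h : InTriv K (bel M P)) : InTriv L P := by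
  intro σ hσ
  obtain ⟨s, hs⟩ : ∃ s : M ≃ₐ[K] M, ∀ m : M, algebraMap M Ω (s m) = σ (algebraMap M Ω m) :=
    ⟨(σ.restrictScalars K).restrictNormal M, fun m =>
      AlgEquiv.restrictNormal_commutes (σ.restrictScalars K) M m⟩
  have h1 : s = 1 := by
    refine h s fun x => ?_
    have e : s (x : M) - x = ((s • x - x : 𝓞 M) : M) := rfl
    rw [e]
    refine (HeightOneSpectrum.valuation_lt_one_iff_mem (K := M) _ _).2 ?_
    rw [mem_bel]
    refine (HeightOneSpectrum.valuation_lt_one_iff_mem (K := Ω) _ _).1 ?_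
    have h2 := hσ (algebraMap (𝓞 M) (𝓞 Ω) x)
    have e2 : algebraMap (𝓞 Ω) Ω (algebraMap (𝓞 M) (𝓞 Ω) (s • x - x)) =
        σ ((algebraMap (𝓞 M) (𝓞 Ω) x : 𝓞 Ω) : Ω) - (algebraMap (𝓞 M) (𝓞 Ω) x : 𝓞 Ω) := by
      have e3 : ((algebraMap (𝓞 M) (𝓞 Ω) x : 𝓞 Ω) : Ω) = algebraMap M Ω (x : M) := rfl
      rw [e3, ← hs, ← map_sub]
      rfl
    change P.valuation Ω (algebraMap (𝓞 Ω) Ω (algebraMap (𝓞 M) (𝓞 Ω) (s • x - x))) < 1
    rw [e2]
    exact h2
  have h2 : σ (algebraMap M Ω γ) = algebraMap M Ω γ := by rw [← hs, h1, AlgEquiv.one_apply]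
  have h3 : L⟮algebraMap M Ω γ⟯ ≤ IntermediateField.fixedField (Subgroup.zpowers σ) := by
    rw [IntermediateField.adjoin_simple_le_iff]
    rintro ⟨τ, hτ⟩
    have h6 : σ ∈ MulAction.stabilizer (Ω ≃ₐ[L] Ω) (algebraMap M Ω γ) := h2
    obtain ⟨n, rfl⟩ := Subgroup.mem_zpowers_iff.1 hτ
    exact Subgroup.zpow_mem _ h6 n
  ext x
  rw [hL] at h3
  exact h3 (show x ∈ (⊤ : IntermediateField L Ω) from trivial) ⟨σ, Subgroup.mem_zpowers _⟩

/-- Density goes up. -/
theorem dns_up {n : ℕ} {t : Ω} (P : HeightOneSpectrum (𝓞 Ω)) (ht : P.valuation Ω t ≤ 1) (t₀ : L)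
    (htt : algebraMap L Ω t₀ = t)
    (hgen : ∀ x : Ω, ∃ c : Fin n → M, x = ∑ i, algebraMap M Ω (c i) * t ^ (i : ℕ))
    (h : Dns K (bel M P)) : Dns L P := by
  intro s hs
  obtain ⟨c, hc⟩ := hgen s
  have hs0 : P.valuation Ω s ≠ 0 := (Valuation.ne_zero_iff _).2 hs
  have key : ∀ i : Fin n, ∃ k : K, P.valuation Ω (algebraMap M Ω (c i - algebraMap K M k)) <
      P.valuation Ω s := by
    intro i
    obtain ⟨k, hk⟩ := h.strong (c i) (ε := min (P.valuation Ω s) 1)
      (by
        rcases min_choice (P.valuation Ω s) 1 with e | e <;> rw [e]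
        · exact hs0
        · exact one_ne_zero)
    refine ⟨k, ?_⟩
    rw [← val_pow]
    have h1 := lt_of_lt_of_le hk (min_le_left _ _)
    have h2 := (lt_of_lt_of_le hk (min_le_right _ _)).le
    have h3 : P.asIdeal.ramificationIdx (𝓞 M) ≠ 0 := by
      haveI := P.isPrime
      exact (P.asIdeal.ramificationIdx_pos (𝓞 M)).ne'
    refine lt_of_le_of_lt (pow_le_of_le_one zero_le h2 h3) h1
  choose k hk using key
  refine ⟨∑ i, algebraMap K L (k i) * t₀ ^ (i : ℕ), ?_⟩
  have e : s - algebraMap L Ω (∑ i, algebraMap K L (k i) * t₀ ^ (i : ℕ)) =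
      ∑ i, algebraMap M Ω (c i - algebraMap K M (k i)) * t ^ (i : ℕ) := by
    rw [map_sum, hc, ← Finset.sum_sub_distrib]
    refine Finset.sum_congr rfl fun i _ => ?_
    rw [map_mul, map_pow, htt, ← IsScalarTower.algebraMap_apply K L Ω, map_sub,
      ← IsScalarTower.algebraMap_apply K M Ω]
    ring
  rw [e]
  refine Valuation.map_sum_lt _ hs0 fun i _ => ?_
  rw [map_mul, map_pow]
  calc _ ≤ P.valuation Ω (algebraMap M Ω (c i - algebraMap K M (k i))) * 1 :=
        mul_le_mul' le_rfl (pow_le_one' ht _)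
    _ < _ := by rw [mul_one]; exact hk i

end base

end Pool.Agent.Helper93.Pk
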